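import Pool.Agent.H86.Narrow

/-!
# Formulas for clubs, square sequences and the guessing principle
-/

set_option linter.unusedVariables false

universe u v w

namespace Pool.Agent.H82.CS

open Pool.Agent.H86

section Formulas

variable {N : Type v} {Ω : Type w} (L : LogicStr N Ω)

/-- `x` is nonempty -/
def fNe (x : N) : Ω := L.ex fun z => L.mem z x

/-- `α` is a limit ordinal (for ordinals `α`) -/
def fLim (α : N) : Ω := L.and (fNe L α)
  (L.all fun ξ => L.imp (L.mem ξ α) (L.ex fun ζ => L.and (L.mem ζ α) (L.mem ξ ζ)))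

/-- `A ⊆ α` -/
def fSub (A α : N) : Ω := L.all fun z => L.imp (L.mem z A) (L.mem z α)

/-- `A` is unbounded in `α` -/
def fUnb (A α : N) : Ω :=
  L.all fun ξ => L.imp (L.mem ξ α) (L.ex fun ζ => L.and (L.mem ζ A) (L.mem ξ ζ))

/-- `A ∩ β` is unbounded in `β` -/
def fUnbB (A β : N) : Ω :=
  L.all fun ξ => L.imp (L.mem ξ β)
    (L.ex fun ζ => L.and (L.mem ζ A) (L.and (L.mem ζ β) (L.mem ξ ζ)))

/-- `A` is closed in `α` -/
def fClosed (A α : N) : Ω :=
  L.all fun β => L.imp (L.mem β α) (L.imp (fNe L β) (L.imp (fUnbB L A β) (L.mem β A)))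

/-- `A` is a closed unbounded subset of `α` -/
def fClub (A α : N) : Ω := L.and (fSub L A α) (L.and (fUnb L A α) (fClosed L A α))

/-- `f` is strictly increasing -/
def fIncr (f : N) : Ω :=
  L.all fun x => L.all fun y => L.all fun x' => L.all fun y' =>
    L.imp (fRel L f x y) (L.imp (fRel L f x' y') (L.imp (L.mem x x') (L.mem y y')))

/-- the set of ordinals `A` embeds in the ordinal `lam` -/
def fOtpLe (A lam : N) : Ω :=
  L.ex fun f => L.and (fFun L f) (L.and
    (L.all fun x => L.imp (L.mem x A) (L.ex fun y => L.and (L.mem y lam) (fRel L f x y)))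
    (fIncr L f))

/-- `F` is the increasing enumeration of `A` in order type `θ` -/
def fIso (F θ A : N) : Ω :=
  L.and (fFun L F) <|
  L.and (L.all fun i => L.iff (L.mem i θ) (L.ex fun a => fRel L F i a)) <|
  L.and (L.all fun a => L.iff (L.mem a A) (L.ex fun i => fRel L F i a)) (fIncr L F)

/-- the requirements on the member `A` of the square sequence `C` with index `α` -/
def fSqC (C lam α A : N) : Ω :=
  L.and (fClub L A α) <| L.and (fOtpLe L A lam) <|
    L.all fun β => L.imp (L.mem β A) <| L.imp (fUnbB L A β) <|
      L.all fun B => L.imp (fRel L C β B) <|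
        L.all fun z => L.iff (L.mem z B) (L.and (L.mem z A) (L.mem z β))

/-- `C` is a square sequence -/
def fSquare (C lam kap : N) : Ω :=
  L.and (fFun L C) <|
  L.and (L.all fun α => L.iff (L.mem α kap) (L.ex fun A => fRel L C α A)) <|
  L.all fun α => L.imp (L.mem α kap) <| L.imp (fLim L α) <| L.all fun A =>
    L.imp (fRel L C α A) (fSqC L C lam α A)

/-- `j = i + 1` -/
def fSucc (j i : N) : Ω := L.all fun z => L.iff (L.mem z j) (L.or (L.mem z i) (L.eq z i))

/-- the conclusion of the guessing property -/
def fGuessC (C kap T θ D : N) : Ω :=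
  L.ex fun α => L.and (L.mem α kap) <| L.and (fLim L α) <| L.ex fun A =>
    L.and (fRel L C α A) <| L.ex fun F => L.and (fIso L F θ A) <|
      L.all fun i => L.all fun j => L.all fun x => L.all fun y =>
        L.imp (L.mem i θ) <| L.imp (fSucc L j i) <| L.imp (fRel L F i x) <|
        L.imp (fRel L F j y) <|
        L.and (L.ex fun B => L.and (fRel L T i B) (L.mem y B))
          (L.ex fun β => L.and (L.mem β D) (L.and (L.mem x β) (L.mem β y)))

/-- the guessing property of `C` -/
def fGuess (C lam kap : N) : Ω :=
  L.all fun T => L.imp (fFun L T) <|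
    L.imp (L.all fun i => L.imp (L.mem i lam) (L.ex fun A => fRel L T i A)) <|
    L.imp (L.all fun i => L.all fun A => L.imp (fRel L T i A)
      (L.and (fSub L A kap) (fUnb L A kap))) <|
    L.all fun θ => L.imp (L.mem θ lam) <| L.imp (fLim L θ) <|
      L.all fun D => L.imp (fClub L D kap) (fGuessC L C kap T θ D)

/-- there is an injection from `a` to `b` -/
def fInjTo (a b : N) : Ω :=
  L.ex fun f => L.and (fFun L f) (L.and (fInj L f)
    (L.all fun x => L.imp (L.mem x a) (L.ex fun y => L.and (L.mem y b) (fRel L f x y))))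

/-- `f` is a function from `a` to `b` -/
def fFunOn (f a b : N) : Ω :=
  L.and (fFun L f) (L.and (L.all fun x => L.iff (L.mem x a) (L.ex fun y => fRel L f x y))
    (L.all fun x => L.all fun y => L.imp (fRel L f x y) (L.mem y b)))

/-- there is an injection from the functions `a → b` to `b` -/
def fPowLe (a b : N) : Ω :=
  L.ex fun h => L.and (fFun L h) (L.and (fInj L h)
    (L.all fun f => L.imp (fFunOn L f a b) (L.ex fun y => L.and (L.mem y b) (fRel L h f y))))

/-- `x` is covered by the range of a function defined on ordinals -/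
def fCov (x : N) : Ω :=
  L.ex fun f => L.and (fFun L f) <|
    L.and (L.all fun i => L.all fun y => L.imp (fRel L f i y) (fOrd L i)) <|
    L.and (L.all fun i => L.all fun y => L.all fun i' => L.all fun y' =>
      L.imp (fRel L f i y) <| L.imp (fRel L f i' y') <|
        L.or (L.mem i i') (L.or (L.eq i i') (L.mem i' i)))
    (L.all fun y => L.imp (L.mem y x) (L.ex fun i => fRel L f i y))

/-- selected elements: the values of `f` with least index in a member of `x` -/
def fSel (z x f : N) : Ω :=
  L.ex fun y => L.and (L.mem y x) <| L.and (L.mem z y) <|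
    L.ex fun i => L.and (fRel L f i z) <|
      L.all fun j => L.imp (L.mem j i) <| L.all fun z' => L.imp (fRel L f j z') <|
        L.imp (L.mem z' y) L.bot

/-- some value of `f` at `i` lies in `y` -/
def fHit (i f y : N) : Ω := L.ex fun z => L.and (fRel L f i z) (L.mem z y)

/-- the ordinal `a` is a cardinal -/
def fCard (a : N) : Ω := L.and (fOrd L a)
  (L.all fun ν => L.imp (L.mem ν a) (L.imp (fInjTo L a ν) L.bot))

/-- `b` is the least ordinal that does not inject in `a` -/
def fSC (a b : N) : Ω :=
  L.and (fOrd L b) <| L.and (L.mem a b) <| L.and (L.imp (fInjTo L b a) L.bot)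
    (L.all fun ν => L.imp (L.mem ν b) (fInjTo L ν a))

/-- negation of the cardinal inequality -/
def fNotPow (a b : N) : Ω := L.imp (fPowLe L a b) L.bot

/-- every set is covered -/
def fAllCov : Ω := L.all fun x => fCov L x

end Formulas

end Pool.Agent.H82.CS
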