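import Pool.Agent.H82.CS.Prod
import Pool.Agent.H82.CS.Fm

/-!
# Cardinals are preserved
-/

set_option linter.unusedVariables false
set_option linter.unusedSectionVars false

namespace Pool.Agent.H82.CS

open Pool.Agent.H86 Ordinal Name

theorem R_uniq {f : SS.HN} {p : QQ} (hf : (fFun SS.FS f).holds p) {X Y Y' : SS.HN} {q : QQ}
    (hq : q ≤ p) (h1 : SS.R f X Y q) (h2 : SS.R f X Y' q) : feq Y.1 Y'.1 q :=
  hf.2 X Y Y' q hq (SS.holds_fRel.2 h1) q le_rfl (SS.holds_fRel.2 h2)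

theorem R_uniq_o {f : SS.HN} {p : QQ} (hf : (fFun SS.FS f).holds p) {X : SS.HN} {β β' : O0}
    {q : QQ} (hq : q ≤ p) (h1 : SS.R f X (o β) q) (h2 : SS.R f X (o β') q) : β = β' :=
  feq_o.1 (R_uniq hf hq h1 h2)

theorem R_inj {f : SS.HN} {p : QQ} (hf : (fInj SS.FS f).holds p) {X X' Y : SS.HN} {q : QQ}
    (hq : q ≤ p) (h1 : SS.R f X Y q) (h2 : SS.R f X' Y q) : feq X.1 X'.1 q :=
  hf X X' Y q hq (SS.holds_fRel.2 h1) q le_rfl (SS.holds_fRel.2 h2)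

theorem R_inj_o {f : SS.HN} {p : QQ} (hf : (fInj SS.FS f).holds p) {Y : SS.HN} {β β' : O0}
    {q : QQ} (hq : q ≤ p) (h1 : SS.R f (o β) Y q) (h2 : SS.R f (o β') Y q) : β = β' :=
  feq_o.1 (R_inj hf hq h1 h2)

/-- A ground model injection between ordinals. -/
theorem inj_of (a b : O0) (g : O0 → O0) (h : ∀ α < a, g α < b)
    (hi : ∀ α < a, ∀ α' < a, g α = g α' → α = α') (p : QQ) :
    (fInjTo SS.FS (o a) (o b)).holds p := by
  intro q hq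
  have hD : ∀ α β (p q : QQ), q ≤ p → (α < a ∧ β = g α) → (α < a ∧ β = g α) :=
    fun _ _ _ _ _ h => h
  refine ⟨q, le_rfl, rn (fun α β _ => α < a ∧ β = g α), fFun_rn hD ?_, fInj_rn hD ?_, ?_⟩
  · rintro α β β' r _ ⟨_, h1⟩ ⟨_, h2⟩
    rw [h1, h2]
  · rintro α α' β r _ ⟨h3, h1⟩ ⟨h4, h2⟩
    exact hi α h3 α' h4 (h1.symm.trans h2)
  · intro X r hr hX s hs
    obtain ⟨t, ht, α, hα, h1⟩ := mem_o.1 hX s hs
    refine ⟨t, ht, o (g α), fmem_o.2 (h α hα), SS.holds_fRel.2 ?_⟩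
    rw [R_rn hD]
    intro t' ht'
    exact ⟨t', le_rfl, α, g α, ⟨hα, rfl⟩, feq_mono ht' h1, feq_refl _ _⟩

/-- There is no injection when countable covers cannot exhaust the domain. -/
theorem no_inj (a b : O0) (hb : b ≤ w1)
    (hab : ∀ S : O0 → Set O0, (∀ i < b, (S i).Countable) → ∃ ζ < a, ∀ i < b, ζ ∉ S i)
    (p : QQ) : ¬ (fInjTo SS.FS (o a) (o b)).holds p := by
  classical
  intro hp
  obtain ⟨⟨p0, t0⟩, hp0, f, hf1, hf2, hf3⟩ := hp p le_rfl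
  let D : O0 → Coh → Sq → O0 → Prop := fun i q s ζ =>
    (ζ < a ∧ SS.R f (o ζ) (o i) (q, s)) ∨
      (ζ = a ∧ ∀ r ≤ ((q, s) : QQ), ∀ ξ < a, ¬ SS.R f (o ξ) (o i) r)
  obtain ⟨t, ht, hgood⟩ := exists_good_all D
    (fun {i p q s t ζ} h1 h2 h => by
      rcases h with ⟨h3, h4⟩ | ⟨h3, h4⟩
      · exact Or.inl ⟨h3, SS.R_mono ⟨h1, h2⟩ h4⟩
      · exact Or.inr ⟨h3, fun r hr => h4 r (hr.trans ⟨h1, h2⟩)⟩)
    t0 p0 (fun i _ q hq s hs => by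
      by_cases h : ∃ r ≤ ((q, s) : QQ), ∃ ξ < a, SS.R f (o ξ) (o i) r
      · obtain ⟨⟨r, u⟩, hr, ξ, hξ, h1⟩ := h
        exact ⟨r, hr.1, u, hr.2, ξ, Or.inl ⟨hξ, h1⟩⟩
      · push Not at h
        exact ⟨q, le_rfl, s, le_rfl, a, Or.inr ⟨rfl, h⟩⟩)
  let S : O0 → Set O0 := fun i => {ζ | ζ < a ∧ ∃ q ≤ p0, SS.R f (o ζ) (o i) (q, t)}
  obtain ⟨ζ, hζ, hζS⟩ := hab S (fun i hi => by
    have hex : ∀ ζ : O0, ∃ q : Coh, ζ ∈ S i → q ≤ p0 ∧ SS.R f (o ζ) (o i) (q, t) := by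
      intro ζ
      by_cases h : ζ ∈ S i
      · obtain ⟨_, q, h1, h2⟩ := h
        exact ⟨q, fun _ => ⟨h1, h2⟩⟩
      · exact ⟨⊤, fun h' => (h h').elim⟩
    choose q hq using hex
    refine Coh.ccc_fam _ q ?_
    rintro ζ h1 ζ' h2 ⟨r, hr1, hr2⟩
    refine R_inj_o (q := (r, t)) hf2 ⟨hr1.trans (hq ζ h1).1, ht⟩
      (SS.R_mono (show ((r, t) : QQ) ≤ (q ζ, t) from ⟨hr1, le_rfl⟩) (hq ζ h1).2)
      (SS.R_mono (show ((r, t) : QQ) ≤ (q ζ', t) from ⟨hr2, le_rfl⟩) (hq ζ' h2).2))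
  have h1 := hf3 (o ζ) (p0, t) ⟨le_rfl, ht⟩ (fmem_o.2 hζ)
  obtain ⟨r1, hr1, Y, hY, h2⟩ := h1 (p0, t) le_rfl
  rw [SS.holds_fRel] at h2
  obtain ⟨⟨r, s⟩, hr, i, hi, h3⟩ := mem_o' hY
  have h4 : SS.R f (o ζ) (o i) (r, s) :=
    SS.R_congr (feq_refl _ _) (feq_refl _ _) h3 (SS.R_mono hr h2)
  have hrp : ((r, s) : QQ) ≤ (p0, t) := hr.trans hr1
  obtain ⟨r', hr', ζ', h5⟩ := hgood i (hi.trans_le hb) r hrp.1
  rcases h5 with ⟨h6, h7⟩ | ⟨h6, h7⟩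
  · have h8 : SS.R f (o ζ') (o i) (r', s) :=
      SS.R_mono (show ((r', s) : QQ) ≤ (r', t) from ⟨le_rfl, hrp.2⟩) h7
    have h9 : SS.R f (o ζ) (o i) (r', s) :=
      SS.R_mono (show ((r', s) : QQ) ≤ (r, s) from ⟨hr', le_rfl⟩) h4
    have e : ζ = ζ' := R_inj_o (q := (r', s)) hf2 ⟨hr'.trans hrp.1, hrp.2.trans ht⟩ h9 h8
    subst e
    exact hζS i hi ⟨hζ, r', hr'.trans hrp.1, h7⟩
  · exact h7 (r', s) ⟨le_rfl, hrp.2⟩ ζ hζ
      (SS.R_mono (show ((r', s) : QQ) ≤ (r, s) from ⟨hr', le_rfl⟩) h4)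

theorem no_inj_w1 (p : QQ) : ¬ (fInjTo SS.FS (o w1) (o ω)).holds p := by
  refine no_inj w1 ω omega0_lt_omega_one.le (fun S hS => ?_) p
  by_contra hc
  push Not at hc
  refine not_countable_Iio (k := w1) le_rfl (Set.Countable.mono (s₂ := ⋃ i ∈ Set.Iio ω, S i)
    (fun ζ hζ => ?_) ((countable_Iio omega0_lt_omega_one).biUnion hS))
  obtain ⟨i, hi, h⟩ := hc ζ hζ
  simp only [Set.mem_iUnion]
  exact ⟨i, hi, h⟩

theorem no_inj_w2 (p : QQ) : ¬ (fInjTo SS.FS (o w2) (o w1)).holds p := by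
  refine no_inj w2 w1 le_rfl (fun S hS => ?_) p
  classical
  -- every `S i ∩ ω₂` is bounded
  have hb : ∀ i : O0, ∃ B < w2, i < w1 → ∀ ζ ∈ S i, ζ < w2 → ζ ≤ B := by
    intro i
    by_cases hi : i < w1
    · obtain ⟨B, hB, h⟩ := bdd_of_countable (S := {ζ | ζ ∈ S i ∧ ζ < w2})
        ((hS i hi).mono fun ζ h => h.1) (fun ζ h => h.2)
      exact ⟨B, hB, fun _ ζ h1 h2 => h ζ ⟨h1, h2⟩⟩
    · exact ⟨0, omega_pos _, fun h => (hi h).elim⟩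
  choose B hB hB2 using hb
  obtain ⟨L, hL, hL1, _⟩ := exists_sup w1_lt_w2 B (fun i _ => hB i)
  have h1 : L + 1 < w2 := lim_w2.add_one_lt hL
  refine ⟨L + 1, h1, fun i hi hmem => ?_⟩
  exact absurd ((hB2 i hi _ hmem h1).trans (hL1 i hi)) (not_le.2 (lt_add_one _))

/-- finite pigeonhole -/
theorem no_inj_nat (n : ℕ) (p : QQ) : ¬ (fInjTo SS.FS (o ω) (o (n : O0))).holds p := by
  classical
  intro hp
  obtain ⟨p0, hp0, f, hf1, hf2, hf3⟩ := hp p le_rfl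
  have key : ∀ m : ℕ, ∃ q ≤ p0, ∃ g : ℕ → ℕ, ∀ k < m, g k < n ∧
      SS.R f (o (k : O0)) (o (g k : O0)) q := by
    intro m
    induction m with
    | zero => exact ⟨p0, le_rfl, fun _ => 0, fun k hk => by omega⟩
    | succ m ih =>
      obtain ⟨q, hq, g, hg⟩ := ih
      have h1 := hf3 (o (m : O0)) q hq (fmem_o.2 (natCast_lt_omega0 m))
      obtain ⟨r1, hr1, Y, hY, h2⟩ := h1 q le_rfl
      rw [SS.holds_fRel] at h2
      obtain ⟨r, hr, i, hi, h3⟩ := mem_o' hY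
      obtain ⟨j, rfl⟩ := Ordinal.lt_omega0.1 (hi.trans (natCast_lt_omega0 n))
      refine ⟨r, hr.trans (hr1.trans hq), fun k => if k = m then j else g k, fun k hk => ?_⟩
      by_cases hkm : k = m
      · subst hkm
        simp only [if_true]
        refine ⟨by exact_mod_cast hi, ?_⟩
        exact SS.R_congr (feq_refl _ _) (feq_refl _ _) h3 (SS.R_mono hr h2)
      · simp only [hkm, if_false]
        obtain ⟨h4, h5⟩ := hg k (by omega)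
        exact ⟨h4, SS.R_mono (hr.trans hr1) h5⟩
  obtain ⟨q, hq, g, hg⟩ := key (n + 1)
  obtain ⟨x, hx, y, hy, hxy, he⟩ := Finset.exists_ne_map_eq_of_card_lt_of_maps_to
    (s := Finset.range (n + 1)) (t := Finset.range n) (f := g) (by simp)
    (fun k hk => by
      have := (hg k (Finset.mem_range.1 hk)).1
      simpa using this)
  have h1 := (hg x (Finset.mem_range.1 hx)).2
  have h2 := (hg y (Finset.mem_range.1 hy)).2
  rw [← he] at h2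
  have := R_inj_o hf2 hq h1 h2
  exact hxy (by exact_mod_cast this)

/-- assignment of two names -/
def asg2 (a b : SS.HN) : ℕ → SS.HN
  | 0 => a
  | _ => b

theorem asg2_congr {a b a' b' : SS.HN} {p : QQ} (h1 : feq a.1 a'.1 p) (h2 : feq b.1 b'.1 p) :
    ∀ i, feq (asg2 a b i).1 (asg2 a' b' i).1 p
  | 0 => h1
  | (_ + 1) => h2

theorem fInjTo_congr {a b a' b' : SS.HN} {p : QQ} (h1 : feq a.1 a'.1 p) (h2 : feq b.1 b'.1 p) :
    (fInjTo SS.FS a b).holds p ↔ (fInjTo SS.FS a' b').holds p :=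
  SS.eval_eq_iff (fInjTo codeStr 0 1 2) (asg2 a b) (asg2 a' b') p
    (fun i _ => asg2_congr h1 h2 i)

/-- `ω` is not injected in smaller ordinals -/
theorem forced_omega_card (p : QQ) {ν : SS.HN} (hν : fmem ν.1 (o ω).1 p) :
    ¬ (fInjTo SS.FS (o ω) ν).holds p := by
  intro h
  obtain ⟨r, hr, β, hβ, h1⟩ := mem_o' hν
  obtain ⟨n, rfl⟩ := Ordinal.lt_omega0.1 hβ
  exact no_inj_nat n r ((fInjTo_congr (feq_refl _ _) h1).1 (((fInjTo SS.FS (o ω) ν)).mono hr h))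

theorem inj_w1 (p : QQ) {ν : SS.HN} (hν : fmem ν.1 (o w1).1 p) :
    (fInjTo SS.FS ν (o ω)).holds p := by
  apply (fInjTo SS.FS ν (o ω)).reg
  intro q hq
  obtain ⟨r, hr, β, hβ, h1⟩ := mem_o.1 hν q hq
  refine ⟨r, hr, (fInjTo_congr h1 (feq_refl _ _)).2 ?_⟩
  obtain ⟨g, hg⟩ := Set.countable_iff_exists_injOn.1 (countable_Iio hβ)
  exact inj_of β ω (fun α => (g α : O0)) (fun α _ => natCast_lt_omega0 _)
    (fun α hα α' hα' h => hg hα hα' (by exact_mod_cast h)) r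

theorem inj_w2 (p : QQ) {ν : SS.HN} (hν : fmem ν.1 (o w2).1 p) :
    (fInjTo SS.FS ν (o w1)).holds p := by
  apply (fInjTo SS.FS ν (o w1)).reg
  intro q hq
  obtain ⟨r, hr, β, hβ, h1⟩ := mem_o.1 hν q hq
  refine ⟨r, hr, (fInjTo_congr h1 (feq_refl _ _)).2 ?_⟩
  have h2 : Cardinal.mk (Set.Iio β) ≤ Cardinal.mk (Set.Iio w1) := by
    rw [Cardinal.mk_Iio_ordinal w1, Ordinal.card_omega]
    simpa using card_Iio_le hβ
  obtain ⟨g⟩ := h2
  classical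
  refine inj_of β w1 (fun α => if h : α < β then (g ⟨α, Set.mem_Iio.2 h⟩).1 else 0) (fun α hα => ?_)
    (fun α hα α' hα' h => ?_) r
  · simp only [hα, dif_pos]
    exact (g ⟨α, Set.mem_Iio.2 hα⟩).2
  · simp only [hα, hα', dif_pos] at h
    have := g.injective (Subtype.ext h)
    exact congrArg Subtype.val this

end Pool.Agent.H82.CS
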