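import Pool.Agent.H86.Sym

/-!
# Cohen conditions and their countable chain condition
-/

set_option linter.unusedVariables false
set_option linter.unusedSectionVars false

namespace Pool.Agent.H82.CS

open Pool.Agent.H86

/-- the ordinals of the lowest universe -/
abbrev O0 : Type 1 := Ordinal.{0}

/-- Conditions: finite functions from `O0 × ℕ` to `Bool`. -/
@[ext] structure Coh : Type 1 where
  f : O0 × ℕ → Option Bool
  fin : {x | f x ≠ none}.Finite

namespace Coh

instance : PartialOrder Coh where
  le := fun p q => ∀ x b, q.f x = some b → p.f x = some b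
  le_refl := fun p x γ h => h
  le_trans := fun p q r h1 h2 x γ h => h1 x γ (h2 x γ h)
  le_antisymm := fun p q h1 h2 => by
    ext x γ
    exact ⟨h2 x γ, h1 x γ⟩

theorem le_def {p q : Coh} : p ≤ q ↔ ∀ x b, q.f x = some b → p.f x = some b := Iff.rfl

instance : OrderTop Coh where
  top := ⟨fun _ => none, by simp⟩
  le_top := fun p x γ h => by simp at h

theorem top_f (x : O0 × ℕ) : (⊤ : Coh).f x = none := rfl

/-- compatibility -/
def Comp (p q : Coh) : Prop := ∃ r : Coh, r ≤ p ∧ r ≤ q

theorem Comp.symm {p q : Coh} (h : Comp p q) : Comp q p := by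
  obtain ⟨r, h1, h2⟩ := h; exact ⟨r, h2, h1⟩

/-- union of two conditions, preferring the first -/
noncomputable def un (p q : Coh) : Coh where
  f := fun x => (p.f x).orElse fun _ => q.f x
  fin := by
    refine (p.fin.union q.fin).subset ?_
    intro x hx
    simp only [Set.mem_ofPred_eq, Set.mem_union] at hx ⊢
    by_contra hc
    push Not at hc
    rw [hc.1, hc.2] at hx
    exact hx rfl

theorem un_le_left (p q : Coh) : un p q ≤ p := by
  intro x γ h
  show (p.f x).orElse _ = _
  rw [h]; rfl

theorem un_le_right {p q : Coh} (h : ∀ x a b, p.f x = some a → q.f x = some b → a = b) :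
    un p q ≤ q := by
  intro x γ hx
  show (p.f x).orElse _ = _
  cases hp : p.f x with
  | none => exact hx
  | some a => rw [h x a γ hp hx]; rfl

theorem comp_iff {p q : Coh} :
    Comp p q ↔ ∀ x a b, p.f x = some a → q.f x = some b → a = b := by
  constructor
  · rintro ⟨r, h1, h2⟩ x a b ha hb
    have e1 := h1 x a ha
    have e2 := h2 x b hb
    rw [e1] at e2
    exact Option.some.inj e2
  · intro h
    exact ⟨un p q, un_le_left p q, un_le_right h⟩

open Classical in
/-- remove a point from the domain -/
noncomputable def er (p : Coh) (x : O0 × ℕ) : Coh where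
  f := fun y => if y = x then none else p.f y
  fin := p.fin.subset fun y hy => by
    simp only [Set.mem_ofPred_eq] at hy ⊢
    intro h; apply hy; simp [h]

theorem er_f_self (p : Coh) (x : O0 × ℕ) : (p.er x).f x = none := by simp [er]

theorem er_f_ne (p : Coh) {x y : O0 × ℕ} (h : y ≠ x) : (p.er x).f y = p.f y := by simp [er, h]

/-- number of points in the domain -/
noncomputable def sz (p : Coh) : ℕ := {x | p.f x ≠ none}.ncard

theorem sz_er {p : Coh} {x : O0 × ℕ} (h : p.f x ≠ none) : (p.er x).sz + 1 = p.sz := by
  have e : {y | (p.er x).f y ≠ none} = {y | p.f y ≠ none} \ {x} := by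
    ext y
    simp only [Set.mem_ofPred_eq, Set.mem_sdiff, Set.mem_singleton_iff]
    by_cases hy : y = x
    · subst hy; simp [er_f_self]
    · rw [er_f_ne _ hy]; simp [hy]
  unfold sz
  rw [e]
  exact Set.ncard_sdiff_singleton_add_one h p.fin

/-- antichains of conditions of fixed size are countable -/
theorem ccc_aux (n : ℕ) : ∀ A : Set Coh, (∀ p ∈ A, ∀ q ∈ A, Comp p q → p = q) →
    (∀ p ∈ A, p.sz = n) → A.Countable := by
  induction n with
  | zero =>
    intro A _ h2
    refine (Set.countable_singleton (⊤ : Coh)).mono ?_
    intro p hp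
    have h3 := h2 p hp
    unfold sz at h3
    rw [Set.ncard_eq_zero p.fin] at h3
    show p = ⊤
    ext x b
    have : x ∉ {x | p.f x ≠ none} := by rw [h3]; simp
    have h4 : p.f x = none := by simpa using this
    rw [h4, top_f]
  | succ n ih =>
    intro A h1 h2
    rcases A.eq_empty_or_nonempty with rfl | ⟨p, hp⟩
    · exact Set.countable_empty
    have hsub : A ⊆ {p} ∪ ⋃ x ∈ {x | p.f x ≠ none}, ⋃ b : Bool, {q | q ∈ A ∧ q.f x = some b} := by
      intro q hq
      by_cases hqp : q = p
      · left; exact hqp
      · right
        have hc : ¬ Comp p q := fun hc => hqp (h1 p hp q hq hc).symm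
        rw [comp_iff] at hc
        push Not at hc
        obtain ⟨x, a, b, ha, hb, hab⟩ := hc
        simp only [Set.mem_iUnion]
        exact ⟨x, by simp [ha], b, hq, hb⟩
    refine Set.Countable.mono hsub ((Set.countable_singleton p).union ?_)
    refine Set.Countable.biUnion p.fin.countable fun x _ => Set.countable_iUnion fun b => ?_
    -- the piece injects into an antichain of smaller conditions
    have hinj : Set.InjOn (fun q : Coh => q.er x) {q | q ∈ A ∧ q.f x = some b} := by
      intro q hq q' hq' he
      ext y c
      by_cases hy : y = x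
      · subst hy; rw [hq.2, hq'.2]
      · have he' : q.er x = q'.er x := he
        rw [← er_f_ne q hy, ← er_f_ne q' hy, he']
    have hcount : ((fun q : Coh => q.er x) '' {q | q ∈ A ∧ q.f x = some b}).Countable := by
      apply ih
      · rintro _ ⟨q, hq, rfl⟩ _ ⟨q', hq', rfl⟩ hc
        have : q = q' := by
          apply h1 q hq.1 q' hq'.1
          rw [comp_iff] at hc ⊢
          intro y c d hc1 hd1
          by_cases hy : y = x
          · subst hy
            rw [hq.2] at hc1; rw [hq'.2] at hd1
            exact (Option.some.inj hc1).symm.trans (Option.some.inj hd1)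
          · exact hc y c d (by rw [er_f_ne _ hy]; exact hc1) (by rw [er_f_ne _ hy]; exact hd1)
        rw [this]
      · rintro _ ⟨q, hq, rfl⟩
        have h3 := h2 q hq.1
        have h4 := sz_er (p := q) (x := x) (by rw [hq.2]; simp)
        show (q.er x).sz = n
        omega
    exact Set.countable_of_injective_of_countable_image hinj hcount

/-- the countable chain condition -/
theorem ccc (A : Set Coh) (h : ∀ p ∈ A, ∀ q ∈ A, Comp p q → p = q) : A.Countable := by
  have e : A = ⋃ n : ℕ, {p | p ∈ A ∧ p.sz = n} := by
    ext p; simp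
  rw [e]
  refine Set.countable_iUnion fun n => ccc_aux n _ ?_ fun p hp => hp.2
  intro p hp q hq
  exact h p hp.1 q hq.1

/-- a family of pairwise incompatible conditions has a countable index set -/
theorem ccc_fam {ι : Type*} (s : Set ι) (a : ι → Coh)
    (h : ∀ i ∈ s, ∀ j ∈ s, Comp (a i) (a j) → i = j) : s.Countable := by
  have hinj : Set.InjOn a s := fun i hi j hj e => h i hi j hj ⟨a i, le_rfl, by rw [e]⟩
  refine Set.countable_of_injective_of_countable_image hinj (ccc _ ?_)
  rintro _ ⟨i, hi, rfl⟩ _ ⟨j, hj, rfl⟩ hc
  rw [h i hi j hj hc]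

/-- one-point condition -/
noncomputable def one (x : O0 × ℕ) (b : Bool) : Coh where
  f := fun y => open Classical in if y = x then some b else none
  fin := (Set.finite_singleton x).subset fun y hy => by
    by_contra hc
    apply hy
    have : ¬ y = x := hc
    simp [this]

theorem one_f_self (x : O0 × ℕ) (b : Bool) : (one x b).f x = some b := by simp [one]

theorem le_one_iff {p : Coh} {x : O0 × ℕ} {b : Bool} : p ≤ one x b ↔ p.f x = some b := by
  constructor
  · intro h; exact h x b (one_f_self x b)
  · intro h y c hy
    by_cases hyx : y = x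
    · subst hyx
      rw [one_f_self] at hy
      rw [← Option.some.inj hy]; exact h
    · simp [one, hyx] at hy

end Coh

end Pool.Agent.H82.CS
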