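import Pool.Agent.H82.CS.Square

/-!
# The generic square sequence guesses
-/

set_option linter.unusedVariables false
set_option linter.unusedSectionVars false

namespace Pool.Agent.H82.CS

open Pool.Agent.H86 Ordinal Name

/-- the requirement on the next point `ζ` -/
noncomputable def Psi (T D : SS.HN) (k γ ζ : O0) : Om QQ :=
  SS.FS.and (SS.FS.ex fun B => SS.FS.and (fRel SS.FS T (o k) B) (SS.FS.mem (o ζ) B))
    (SS.FS.ex fun β => SS.FS.and (SS.FS.mem β D)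
      (SS.FS.and (SS.FS.mem (o γ) β) (SS.FS.mem β (o ζ))))

/-- the hypotheses on the sequence `T` and the club `D` -/
structure Hyp (T D : SS.HN) (p : QQ) : Prop where
  tot : (SS.FS.all fun i => SS.FS.imp (SS.FS.mem i (o w1))
    (SS.FS.ex fun A => fRel SS.FS T i A)).holds p
  unb : (SS.FS.all fun i => SS.FS.all fun A => SS.FS.imp (fRel SS.FS T i A)
      (SS.FS.and (fSub SS.FS A (o w2)) (fUnb SS.FS A (o w2)))).holds p
  club : (fClub SS.FS D (o w2)).holds p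

theorem Hyp.mono {T D : SS.HN} {p q : QQ} (h : q ≤ p) (h1 : Hyp T D p) : Hyp T D q :=
  ⟨Om.mono _ h h1.tot, Om.mono _ h h1.unb, Om.mono _ h h1.club⟩

/-- the next point can be found -/
theorem exists_next {T D : SS.HN} {p : QQ} (h : Hyp T D p) {k : O0} (hk : k < w1) {γ : O0}
    (hγ : γ < w2) : ∃ q ≤ p, ∃ ζ < w2, γ < ζ ∧ (Psi T D k γ ζ).holds q := by
  obtain ⟨p1, hp1, B, hB⟩ := h.tot (o k) p le_rfl (fmem_o.2 hk) p le_rfl
  have h1 := h.mono hp1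
  obtain ⟨hBs, hBu⟩ := h1.unb (o k) B p1 le_rfl hB
  obtain ⟨hDs, hDu, _⟩ := h1.club
  obtain ⟨p2, hp2, Z, hZ1, hZ2⟩ := hDu (o γ) p1 le_rfl (fmem_o.2 hγ) p1 le_rfl
  obtain ⟨p3, hp3, δ, hδ, h3⟩ := mem_o' (hDs Z p2 hp2 hZ1)
  have hγδ : γ < δ := fmem_o.1 (fmem_congr_right h3 (fmem_mono hp3 hZ2))
  obtain ⟨p4, hp4, Y, hY1, hY2⟩ := hBu (o δ) p3 (hp3.trans hp2) (fmem_o.2 hδ) p3 le_rfl
  obtain ⟨p5, hp5, ζ, hζ, h5⟩ := mem_o' (hBs Y p4 (hp4.trans (hp3.trans hp2)) hY1)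
  have hδζ : δ < ζ := fmem_o.1 (fmem_congr_right h5 (fmem_mono hp5 hY2))
  refine ⟨p5, hp5.trans (hp4.trans (hp3.trans (hp2.trans hp1))), ζ, hζ, hγδ.trans hδζ, ?_, ?_⟩
  · intro q hq
    refine ⟨q, le_rfl, B, ?_, ?_⟩
    · exact Om.mono _ (hq.trans (hp5.trans (hp4.trans (hp3.trans hp2)))) hB
    · exact fmem_mono hq (fmem_congr_left h5 (fmem_mono hp5 hY1))
  · intro q hq
    refine ⟨q, le_rfl, Z, ?_, ?_, ?_⟩
    · exact fmem_mono (hq.trans (hp5.trans (hp4.trans hp3))) hZ1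
    · exact fmem_mono (hq.trans (hp5.trans (hp4.trans hp3))) hZ2
    · have : feq Z.1 (o δ).1 q := feq_mono (hq.trans (hp5.trans hp4)) h3
      exact fmem_congr_left (feq_symm this) (fmem_o.2 hδζ)

/-- the successor step of the construction -/
theorem exists_step {T D : SS.HN} {p0 : Coh} {t0 : Sq} (h : Hyp T D (p0, t0)) {k : O0}
    (hk : k < w1) {t : Sq} (ht : t ≤ t0) :
    ∃ t' ≤ t, t.len < t'.len ∧ ∃ b : SV, ∀ ζ p, (b.v ζ).holds p →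
      t.len ≤ ζ ∧ ζ < t'.len ∧ (p ≤ p0 → (Psi T D k t.len ζ).holds (p, t')) := by
  classical
  let Dec : Coh → Sq → O0 → Prop := fun p s ζ =>
    t.len < ζ ∧ ζ < w2 ∧ ∀ q ≤ p, q ≤ p0 → (Psi T D k t.len ζ).holds (q, s)
  obtain ⟨t1, ht1, hgood⟩ := exists_good Dec
    (fun {p q s s' ζ} h1 h2 h3 => ⟨h3.1, h3.2.1, fun r hr hr0 =>
      (Psi T D k t.len ζ).mono (show ((r, s') : QQ) ≤ (r, s) from ⟨le_rfl, h2⟩)
        (h3.2.2 r (hr.trans h1) hr0)⟩)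
    t ⊤ (fun p _ s hs => by
      by_cases hc : ∃ q ≤ p, q ≤ p0
      · obtain ⟨q, hq, hq0⟩ := hc
        have hle : ((q, s) : QQ) ≤ (p0, t0) := ⟨hq0, hs.trans ht⟩
        obtain ⟨⟨q1, s1⟩, hq1, ζ, hζ, h1, h2⟩ := exists_next (h.mono hle) hk t.len_lt
        refine ⟨q1, hq1.1.trans hq, s1, hq1.2, ζ, h1, hζ, fun r hr _ => ?_⟩
        exact (Psi T D k t.len ζ).mono (show ((r, s1) : QQ) ≤ (q1, s1) from ⟨hr, le_rfl⟩) h2
      · push Not at hc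
        exact ⟨p, le_rfl, s, le_rfl, t.len + 1, lt_add_one _, lim_w2.add_one_lt t.len_lt,
          fun q hq hq0 => (hc q hq hq0).elim⟩)
  let b : SV := SV.least (fun p ζ => Dec p t1 ζ)
    (fun p q ζ h1 h3 => ⟨h3.1, h3.2.1, fun r hr hr0 => h3.2.2 r (hr.trans h1) hr0⟩)
    (fun p ζ hreg => by
      obtain ⟨r, hr, h1, h2, _⟩ := hreg p le_rfl
      refine ⟨h1, h2, fun q hq hq0 => (Psi T D k t.len ζ).reg ?_⟩
      rintro ⟨q', s'⟩ hqs
      obtain ⟨r, hr, _, _, h3⟩ := hreg q' (hqs.1.trans hq)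
      refine ⟨(r, s'), ⟨hr, le_rfl⟩, ?_⟩
      exact (Psi T D k t.len ζ).mono (show ((r, s') : QQ) ≤ (r, t1) from ⟨le_rfl, hqs.2⟩)
        (h3 r le_rfl (hr.trans (hqs.1.trans hq0))))
    (fun p => hgood p le_top)
  have hb : ∀ {ζ p}, (b.v ζ).holds p → Dec p t1 ζ := fun h => SV.least_holds h
  obtain ⟨B, hB, hB2⟩ := bdd_of_countable b.cnt (fun ζ ⟨p, hp⟩ => (hb hp).2.1)
  obtain ⟨t2, ht2, hlen⟩ := exists_len (B + 1) (lim_w2.add_one_lt hB) t1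
  have hle : t2.suc ≤ t1 := (Sq.suc_le _).trans ht2
  refine ⟨t2.suc, hle.trans ht1, ?_, b, fun ζ p hp => ⟨(hb hp).1.le, ?_, fun hp0 => ?_⟩⟩
  · exact (Sq.len_mono (ht2.trans ht1)).trans_lt (lt_add_one _)
  · have h1 : ζ ≤ B := hB2 ζ ⟨p, hp⟩
    exact (Order.lt_add_one_iff.2 h1).trans_le (hlen.trans (lt_add_one _).le)
  · exact (Psi T D k t.len ζ).mono (show ((p, t2.suc) : QQ) ≤ (p, t1) from ⟨le_rfl, hle⟩)
      ((hb hp).2.2 p le_rfl hp0)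

/-- the step function -/
theorem exists_stepFun {T D : SS.HN} {p0 : Coh} {t0 : Sq} (h : Hyp T D (p0, t0)) :
    ∃ st : O0 → Sq → Sq × SV, (∀ i t, (st i t).1 ≤ t) ∧ (∀ i t, t.len < (st i t).1.len) ∧
      (∀ i t ζ p, ((st i t).2.v ζ).holds p → t.len ≤ ζ ∧ ζ < (st i t).1.len) ∧
      (∀ i t, Order.IsSuccLimit i → (st i t).2 = SV.chk t.len) ∧
      (∀ k < w1, ∀ t ≤ t0, ∀ ζ p, ((st (k + 1) t).2.v ζ).holds p → p ≤ p0 →
        (Psi T D k t.len ζ).holds (p, (st (k + 1) t).1)) := by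
  classical
  have key : ∀ i t, ∃ x : Sq × SV, x.1 ≤ t ∧ t.len < x.1.len ∧
      (∀ ζ p, (x.2.v ζ).holds p → t.len ≤ ζ ∧ ζ < x.1.len) ∧
      (Order.IsSuccLimit i → x.2 = SV.chk t.len) ∧
      (∀ k < w1, i = k + 1 → t ≤ t0 → ∀ ζ p, (x.2.v ζ).holds p → p ≤ p0 →
        (Psi T D k t.len ζ).holds (p, x.1)) := by
    intro i t
    by_cases hc : ∃ k < w1, i = k + 1 ∧ t ≤ t0
    · obtain ⟨k, hk, rfl, ht⟩ := hc
      obtain ⟨t', ht', hlen, b, hb⟩ := exists_step h hk ht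
      refine ⟨(t', b), ht', hlen, fun ζ p hp => ⟨(hb ζ p hp).1, (hb ζ p hp).2.1⟩, fun hl =>
        (Order.not_isSuccLimit_add_one _ hl).elim, fun k' hk' e _ ζ p hp hp0 => ?_⟩
      have e' : k = k' := by
        refine le_antisymm (Order.lt_add_one_iff.1 ?_) (Order.lt_add_one_iff.1 ?_)
        · rw [← e]; exact lt_add_one k
        · rw [e]; exact lt_add_one k'
      subst e'
      exact (hb ζ p hp).2.2 hp0
    · refine ⟨(t.suc, SV.chk t.len), Sq.suc_le _, lt_add_one _, fun ζ p hp => ?_, fun _ => rfl,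
        fun k hk e ht => (hc ⟨k, hk, e, ht⟩).elim⟩
      rw [SV.chk_holds] at hp
      rw [hp]
      exact ⟨le_rfl, lt_add_one _⟩
  choose st h1 h2 h3 h4 h5 using key
  exact ⟨st, h1, h2, h3, h4, fun k hk t ht ζ p => h5 (k + 1) t k hk rfl ht ζ p⟩

theorem fSucc_congr {a b a' b' : SS.HN} {p : QQ} (h1 : feq a.1 a'.1 p) (h2 : feq b.1 b'.1 p) :
    (fSucc SS.FS a b).holds p ↔ (fSucc SS.FS a' b').holds p :=
  SS.eval_eq_iff (fSucc codeStr 0 1 2) (asg2 a b) (asg2 a' b') p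
    (fun i _ => asg2_congr h1 h2 i)

theorem succ_of_fSucc {j i : O0} {p : QQ} (h : (fSucc SS.FS (o j) (o i)).holds p) :
    j = i + 1 := by
  have h1 : i < j := by
    have := (h (o i)).2 p le_rfl (fun q hq => ⟨q, le_rfl, Or.inr (feq_refl _ _)⟩)
    exact fmem_o.1 this
  refine le_antisymm (not_lt.1 fun h2 => ?_) (Order.add_one_le_iff.2 h1)
  obtain ⟨r, hr, h3 | h3⟩ := (h (o (i + 1))).1 p le_rfl (fmem_o.2 h2) p le_rfl
  · exact absurd (fmem_o.1 h3) (not_lt.2 (lt_add_one _).le)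
  · exact absurd (feq_o.1 h3) (lt_add_one _).ne'

theorem guess_main {T D : SS.HN} {p0 : Coh} {t0 : Sq} (h : Hyp T D (p0, t0)) {θ : O0}
    (hθ : θ < w1) (hθl : Order.IsSuccLimit θ) :
    ∃ r ≤ ((p0, t0) : QQ), (fGuessC SS.FS nC (o w2) T (o θ) D).holds r := by
  classical
  obtain ⟨st, h1, h2, h3, h4, h5⟩ := exists_stepFun h
  obtain ⟨t, ht0, hts, hrun⟩ := exists_run st h1 h2 h3 h4 t0
  have hle : ∀ i ≤ w1, t i ≤ t0 := fun i hi => by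
    rcases eq_or_ne i 0 with rfl | h
    · rw [ht0]
    · rw [← ht0]; exact ((hrun i hi).1 0 (pos_iff_ne_zero.2 h)).1
  have hmono : ∀ i j, i ≤ j → j ≤ w1 → t j ≤ t i := fun i j hij hj => by
    rcases hij.lt_or_eq with h | rfl
    · exact ((hrun j hj).1 i h).1
    · exact le_rfl
  set b : O0 → SV := fun l => (st l (t l)).2 with hb
  have hb3 : ∀ l ζ p, ((b l).v ζ).holds p → (t l).len ≤ ζ ∧ ζ < (t (l + 1)).len := by
    intro l ζ p hp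
    have := h3 l (t l) ζ p hp
    rw [hts]; exact this
  obtain ⟨_, htop⟩ := (hrun θ hθ.le).2 hθl
  set α := (t θ).len with hα
  have hα2 : α < w2 := (t θ).len_lt
  -- order between the points
  have hord : ∀ l l' ζ ζ' p p', l < l' → l' ≤ w1 → ((b l).v ζ).holds p →
      ((b l').v ζ').holds p' → ζ < ζ' := by
    intro l l' ζ ζ' p p' hl hl' hp hp'
    have e1 := (hb3 l ζ p hp).2
    have e2 := (hb3 l' ζ' p' hp').1
    have e3 := Sq.len_mono (hmono (l + 1) l' (Order.add_one_le_iff.2 hl) hl')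
    exact e1.trans_le (e3.trans e2)
  -- the enumeration
  let DF : O0 → O0 → QQ → Prop := fun i ζ q => i < θ ∧ ((b i).v ζ).holds q.1
  have hDF : ∀ i ζ (p q : QQ), q ≤ p → DF i ζ p → DF i ζ q :=
    fun i ζ p q hq h => ⟨h.1, ((b i).v ζ).mono hq.1 h.2⟩
  have hRF : ∀ {X Y : SS.HN} {p : QQ}, SS.R (rn DF) X Y p → ∀ q ≤ p, ∃ r ≤ q, ∃ i ζ, i < θ ∧
      ((b i).v ζ).holds r.1 ∧ feq X.1 (o i).1 r ∧ feq Y.1 (o ζ).1 r := by
    intro X Y p hp q hq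
    obtain ⟨r, hr, i, ζ, ⟨h6, h7⟩, h8⟩ := (R_rn hDF).1 hp q hq
    exact ⟨r, hr, i, ζ, h6, h7, h8⟩
  have hRF2 : ∀ {X Y : SS.HN} {p : QQ} {i ζ : O0}, i < θ → ((b i).v ζ).holds p.1 →
      feq X.1 (o i).1 p → feq Y.1 (o ζ).1 p → SS.R (rn DF) X Y p := by
    intro X Y p i ζ h6 h7 h8 h9
    rw [R_rn hDF]
    intro q hq
    exact ⟨q, le_rfl, i, ζ, ⟨h6, ((b i).v ζ).mono hq.1 h7⟩, feq_mono hq h8, feq_mono hq h9⟩
  refine ⟨(p0, t θ), ⟨le_rfl, hle θ hθ.le⟩, ?_⟩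
  intro q0 hq0
  have hlen : ∀ q : QQ, q ≤ q0 → α ≤ q.2.len := fun q hq => Sq.len_mono (hq.trans hq0).2
  have hc : ∀ q : QQ, q ≤ q0 → ∀ ζ u, ((q.2.c α ζ).holds u ↔ ∃ l < θ, ((b l).v ζ).holds u) := by
    intro q hq ζ u
    rw [Sq.c_eq (hq.trans hq0).2 le_rfl]
    exact htop ζ u
  have hαl : Order.IsSuccLimit α := by
    obtain ⟨u, _, ζ, e2⟩ := (b 0).dense p0
    exact ((t θ).dom ((htop ζ u).2 ⟨0, hθl.bot_lt, e2⟩)).2.2
  refine ⟨q0, le_rfl, o α, fmem_o.2 hα2, fLim_of_lim hαl _, ?_⟩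
  intro q1 hq1
  refine ⟨q1, le_rfl, nc α, ?_, ?_⟩
  · rw [SS.holds_fRel]
    unfold nC
    rw [R_qn_o]
    exact ⟨hα2, feq_refl _ _⟩
  intro q2 hq2
  refine ⟨q2, le_rfl, rn DF, ⟨fFun_rn hDF ?_, ?_, ?_, ?_⟩, ?_⟩
  · rintro i ζ ζ' r _ ⟨_, e1⟩ ⟨_, e2⟩
    exact (b i).sv e1 e2
  · -- domain
    intro X
    refine ⟨fun q hq hX r hr => ?_, fun q hq hX => mem_o.2 fun r hr => ?_⟩
    · obtain ⟨s, hs, i, hi, e1⟩ := mem_o.1 hX r hr
      obtain ⟨u, hu, ζ, e2⟩ := (b i).dense s.1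
      have hus : ((u, s.2) : QQ) ≤ s := ⟨hu, le_rfl⟩
      exact ⟨(u, s.2), hus.trans hs, o ζ,
        SS.holds_fRel.2 (hRF2 hi e2 (feq_mono hus e1) (feq_refl _ _))⟩
    · obtain ⟨s, hs, Y, hY⟩ := hX r hr
      rw [SS.holds_fRel] at hY
      obtain ⟨u, hu, i, ζ, e1, _, e2, _⟩ := hRF hY s le_rfl
      exact ⟨u, hu.trans hs, i, e1, e2⟩
  · -- range
    intro Y
    refine ⟨fun q hq hY r hr => ?_, fun q hq hY => ?_⟩
    · obtain ⟨s, hs, ζ, e1, e2⟩ := mem_nc.1 hY r hr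
      have hs2 : s ≤ q0 := hs.trans (hr.trans (hq.trans (hq2.trans hq1)))
      obtain ⟨l, hl, e3⟩ := (hc s hs2 ζ s.1).1 e1
      exact ⟨s, hs, o l, SS.holds_fRel.2 (hRF2 hl e3 (feq_refl _ _) e2)⟩
    · apply fmem_reg
      intro r hr
      obtain ⟨s, hs, X, hX⟩ := hY r hr
      rw [SS.holds_fRel] at hX
      obtain ⟨u, hu, i, ζ, e1, e2, _, e3⟩ := hRF hX s le_rfl
      have hu2 : u ≤ q0 := hu.trans (hs.trans (hr.trans (hq.trans (hq2.trans hq1))))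
      refine ⟨u, hu.trans hs, fmem_congr_left (feq_symm e3) ((mem_nc_o (hlen u hu2)).2 ?_)⟩
      exact (hc u hu2 ζ u.1).2 ⟨i, e1, e2⟩
  · -- increasing
    intro X Y X' Y' r1 hr1 a1 r2 hr2 a2 r3 hr3 a3
    rw [SS.holds_fRel] at a1 a2
    apply fmem_reg
    intro r hr
    obtain ⟨s, hs, i, ζ, e1, e2, e3, e4⟩ := hRF a1 r (hr.trans (hr3.trans hr2))
    obtain ⟨s', hs', i', ζ', e1', e2', e3', e4'⟩ := hRF a2 s (hs.trans (hr.trans hr3))
    have hii : i < i' := fmem_o.1 (fmem_congr_left (feq_mono hs' e3)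
      (fmem_congr_right e3' (fmem_mono (hs'.trans (hs.trans hr)) a3)))
    have := hord i i' ζ ζ' _ _ hii (e1'.trans hθ).le e2 e2'
    exact ⟨s', hs'.trans hs, fmem_congr_left (feq_symm (feq_mono hs' e4))
      (fmem_congr_right (feq_symm e4') (fmem_o.2 this))⟩
  · -- the guessing clause
    intro I J X Y r1 hr1 a1 r2 hr2 a2 r3 hr3 a3 r4 hr4 a4
    rw [SS.holds_fRel] at a3 a4
    apply Om.reg
    intro r hr
    obtain ⟨s, hs, i, ζ, e1, e2, e3, e4⟩ := hRF a3 r (hr.trans hr4)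
    obtain ⟨s', hs', i', ζ', e1', e2', e3', e4'⟩ := hRF a4 s (hs.trans hr)
    have hsr : s' ≤ r2 := hs'.trans (hs.trans (hr.trans (hr4.trans hr3)))
    have hs0 : s' ≤ q0 := hsr.trans (hr2.trans (hr1.trans (hq2.trans hq1)))
    have hji : i' = i + 1 := succ_of_fSucc (p := s') ((fSucc_congr e3' (feq_mono hs' e3)).1
      ((fSucc SS.FS J I).mono hsr a2))
    subst hji
    have hi1 : i < w1 := e1.trans hθ
    have hi2 : i + 1 ≤ w1 := Order.add_one_le_iff.2 hi1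
    have hpsi := h5 i hi1 (t (i + 1)) (hle _ hi2) ζ' s'.1 e2' (hs0.trans hq0).1
    rw [← hts] at hpsi
    have hi3 : i + 1 + 1 ≤ θ := Order.add_one_le_iff.2 e1'
    have hle2 : s' ≤ (s'.1, t (i + 1 + 1)) :=
      ⟨le_rfl, (hs0.trans hq0).2.trans (hmono _ _ hi3 hθ.le)⟩
    have hpsi' := (Psi T D i (t (i + 1)).len ζ').mono hle2 hpsi
    have hζ : ζ < (t (i + 1)).len := (hb3 i ζ s.1 e2).2
    refine ⟨s', hs'.trans hs, fun v hv => ?_, fun v hv => ?_⟩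
    · obtain ⟨w, hw, B, g1, g2⟩ := hpsi'.1 v hv
      refine ⟨w, hw, B, ?_, ?_⟩
      · rw [SS.holds_fRel] at g1 ⊢
        exact SS.R_congr (feq_refl _ _) (feq_symm (feq_mono ((hw.trans hv).trans hs') e3))
          (feq_refl _ _) g1
      · exact fmem_congr_left (feq_symm (feq_mono (hw.trans hv) e4')) g2
    · obtain ⟨w, hw, β, g1, g2, g3⟩ := hpsi'.2 v hv
      obtain ⟨x, hx, δ, hδ, g4⟩ := mem_o' g3
      have hγδ : (t (i + 1)).len < δ := fmem_o.1 (fmem_congr_right g4 (fmem_mono hx g2))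
      refine ⟨x, hx.trans hw, β, fmem_mono hx g1, ?_, ?_⟩
      · refine fmem_congr_left (feq_symm (feq_mono ((hx.trans (hw.trans hv)).trans hs') e4)) ?_
        exact fmem_congr_right (feq_symm g4) (fmem_o.2 (hζ.trans hγδ))
      · exact fmem_congr_right (feq_symm (feq_mono (hx.trans (hw.trans hv)) e4'))
          (fmem_mono hx g3)

/-- assignment of five names -/
def asg5 (a b c d e : SS.HN) : ℕ → SS.HN
  | 0 => a
  | 1 => b
  | 2 => c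
  | 3 => d
  | _ => e

theorem asg5_congr {a b c d e a' b' c' d' e' : SS.HN} {p : QQ} (h1 : feq a.1 a'.1 p)
    (h2 : feq b.1 b'.1 p) (h3 : feq c.1 c'.1 p) (h4 : feq d.1 d'.1 p) (h5 : feq e.1 e'.1 p) :
    ∀ i, feq (asg5 a b c d e i).1 (asg5 a' b' c' d' e' i).1 p
  | 0 => h1
  | 1 => h2
  | 2 => h3
  | 3 => h4
  | (_ + 4) => h5

theorem fGuessC_congr {a b c d e a' b' c' d' e' : SS.HN} {p : QQ} (h1 : feq a.1 a'.1 p)
    (h2 : feq b.1 b'.1 p) (h3 : feq c.1 c'.1 p) (h4 : feq d.1 d'.1 p) (h5 : feq e.1 e'.1 p) :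
    (fGuessC SS.FS a b c d e).holds p ↔ (fGuessC SS.FS a' b' c' d' e').holds p :=
  SS.eval_eq_iff (fGuessC codeStr 0 1 2 3 4 5) (asg5 a b c d e) (asg5 a' b' c' d' e') p
    (fun i _ => asg5_congr h1 h2 h3 h4 h5 i)

theorem forced_guess (p : QQ) : (fGuess SS.FS nC (o w1) (o w2)).holds p := by
  intro T q1 hq1 a1 q2 hq2 a2 q3 hq3 a3 Θ q4 hq4 a4 q5 hq5 a5 D q6 hq6 a6
  apply (fGuessC SS.FS nC (o w2) T Θ D).reg
  intro q hq
  obtain ⟨r, hr, θ, hθ, e⟩ := mem_o' (fmem_mono (hq.trans (hq6.trans hq5)) a4)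
  have hl : (fLim SS.FS (o θ)).holds r :=
    (fLim_congr e).1 ((fLim SS.FS Θ).mono (hr.trans (hq.trans hq6)) a5)
  have hyp : Hyp T D r := ⟨Om.mono _ (hr.trans (hq.trans (hq6.trans (hq5.trans
      (hq4.trans hq3))))) a2, Om.mono _ (hr.trans (hq.trans (hq6.trans (hq5.trans hq4)))) a3,
    Om.mono _ (hr.trans hq) a6⟩
  obtain ⟨s, hs, h1⟩ := guess_main (p0 := r.1) (t0 := r.2) hyp hθ (lim_of_fLim hl)
  have hsr : s ≤ r := hs
  refine ⟨s, hsr.trans hr, ?_⟩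
  exact (fGuessC_congr (feq_refl _ _) (feq_refl _ _) (feq_refl _ _) (feq_mono hsr e)
    (feq_refl _ _)).2 h1

end Pool.Agent.H82.CS
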