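import Pool.Agent.H82.CS.Cohen

/-!
# Basic facts on the ordinals below `ω_ 2`
-/

set_option linter.unusedVariables false
set_option linter.unusedSectionVars false

namespace Pool.Agent.H82.CS

open Pool.Agent.H86 Ordinal Cardinal

/-- `ω₁` -/
noncomputable abbrev w1 : O0 := ω_ 1
/-- `ω₂` -/
noncomputable abbrev w2 : O0 := ω_ 2

theorem w1_lt_w2 : w1 < w2 := by
  rw [omega_lt_omega]; norm_num

theorem lim_w1 : Order.IsSuccLimit w1 := isSuccLimit_omega _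
theorem lim_w2 : Order.IsSuccLimit w2 := isSuccLimit_omega _

theorem countable_Iio {k : O0} (h : k < w1) : (Set.Iio k).Countable := by
  rw [← Cardinal.le_aleph0_iff_set_countable, Cardinal.mk_Iio_ordinal, ← lift_aleph0.{1, 0},
    Cardinal.lift_le]
  rw [lt_omega_iff_card_lt] at h
  rw [← Order.lt_succ_iff, ← aleph_zero, succ_aleph]
  simpa using h

theorem not_countable_Iio {k : O0} (h : w1 ≤ k) : ¬ (Set.Iio k).Countable := by
  intro hc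
  rw [← Cardinal.le_aleph0_iff_set_countable, Cardinal.mk_Iio_ordinal, ← lift_aleph0.{1, 0},
    Cardinal.lift_le] at hc
  have h1 : (ω_ 1 : O0).card ≤ k.card := Ordinal.card_le_card h
  rw [card_omega] at h1
  have h2 := (h1.trans hc)
  exact absurd h2 (not_le.2 (by rw [← aleph_zero, aleph_lt_aleph]; norm_num))

theorem card_le_one {k : O0} (h : k < w2) : k.card ≤ ℵ_ 1 := by
  rw [lt_omega_iff_card_lt] at h
  rw [← Order.lt_succ_iff, succ_aleph]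
  convert h using 2
  norm_num [one_add_one_eq_two]

/-- a set of ordinals below `ω₂` of size at most `ℵ₁` is bounded -/
theorem bdd_of_card {S : Set O0} (h : #S ≤ ℵ_ 1) (hS : ∀ ζ ∈ S, ζ < w2) :
    ∃ B < w2, ∀ ζ ∈ S, ζ ≤ B := by
  have hsm : Small.{0} S := by
    rw [Cardinal.small_iff_lift_mk_lt_univ]
    refine lt_of_le_of_lt (Cardinal.lift_le.2 h) ?_
    have e : (ℵ_ 1 : Cardinal.{1}) = Cardinal.lift.{1, 0} (ℵ_ 1) := by simp
    rw [e, Cardinal.lift_lift]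
    exact Cardinal.lift_lt_univ' _
  refine ⟨sSup S, ?_, fun ζ hζ => le_csSup (Ordinal.bddAbove_of_small) hζ⟩
  apply Ordinal.sSup_lt_of_lt_cof _ hS
  refine lt_of_le_of_lt h ?_
  have e : w2 = ω_ (1 + 1 : Ordinal) := by norm_num [one_add_one_eq_two]
  rw [e, Ordinal.lift_omega]
  have e2 : (lift.{1} (1 + 1 : Ordinal.{0})) = 1 + 1 := by simp
  rw [e2, cof_omega_add_one, aleph_lt_aleph]
  exact lt_add_one _

theorem bdd_of_countable {S : Set O0} (h : S.Countable) (hS : ∀ ζ ∈ S, ζ < w2) :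
    ∃ B < w2, ∀ ζ ∈ S, ζ ≤ B := by
  refine bdd_of_card ?_ hS
  refine (Cardinal.le_aleph0_iff_set_countable.2 h).trans (aleph0_le_aleph _)

theorem card_Iio_le {k : O0} (h : k < w2) : #(Set.Iio k) ≤ ℵ_ 1 := by
  rw [Cardinal.mk_Iio_ordinal]
  have := Cardinal.lift_le.{1}.2 (card_le_one h)
  simpa using this

/-- least upper bounds of families indexed by ordinals below `ω₂` -/
theorem exists_sup {i : O0} (hi : i < w2) (f : O0 → O0) (hf : ∀ k < i, f k < w2) :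
    ∃ L < w2, (∀ k < i, f k ≤ L) ∧ ∀ δ < L, ∃ k < i, δ < f k := by
  obtain ⟨B, hB, hB2⟩ := bdd_of_card (S := f '' Set.Iio i)
    (Cardinal.mk_image_le.trans (card_Iio_le hi)) (by rintro _ ⟨k, hk, rfl⟩; exact hf k hk)
  obtain ⟨L, hL, hmin⟩ := WellFounded.has_min (wellFounded_lt (α := O0))
    {L | ∀ k < i, f k ≤ L} ⟨B, fun k hk => hB2 _ ⟨k, hk, rfl⟩⟩
  refine ⟨L, ?_, hL, fun δ hδ => ?_⟩
  · refine lt_of_le_of_lt (not_lt.1 (hmin B fun k hk => hB2 _ ⟨k, hk, rfl⟩)) hB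
  · by_contra hc
    push Not at hc
    exact hmin δ hc hδ

/-- every ordinal below `ω₂` is enumerated by `ω₁` -/
theorem exists_enum {α : O0} (h : α < w2) : ∃ f : O0 → O0, ∀ β < α, ∃ k < w1, f k = β := by
  classical
  have h1 : #(Set.Iio α) ≤ #(Set.Iio w1) := by
    rw [Cardinal.mk_Iio_ordinal w1, card_omega]
    simpa using card_Iio_le h
  obtain ⟨g⟩ := h1
  have hex : ∀ k : O0, ∃ b : O0, ∀ β : Set.Iio α, (g β).1 = k → b = β.1 := by
    intro k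
    by_cases h : ∃ β : Set.Iio α, (g β).1 = k
    · obtain ⟨β, hβ⟩ := h
      refine ⟨β.1, fun β' hβ' => ?_⟩
      rw [g.injective (Subtype.ext (hβ.trans hβ'.symm))]
    · exact ⟨0, fun β hβ => (h ⟨β, hβ⟩).elim⟩
  choose f hf using hex
  exact ⟨f, fun β hβ => ⟨(g ⟨β, Set.mem_Iio.2 hβ⟩).1, (g ⟨β, Set.mem_Iio.2 hβ⟩).2,
    hf _ _ rfl⟩⟩

/-- a set of ordinals all of whose proper initial segments are countable embeds in `ω₁` -/
theorem exists_embed (S : Set O0) (α : O0) (hS : ∀ ζ ∈ S, ζ < α)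
    (hc : ∀ δ < α, {ζ | ζ < δ ∧ ζ ∈ S}.Countable) :
    ∃ g : O0 → O0, (∀ ζ ∈ S, g ζ < w1) ∧ ∀ ζ ∈ S, ∀ ζ' ∈ S, ζ < ζ' → g ζ < g ζ' := by
  classical
  -- `g ζ` is the least ordinal above all `g ζ'` with `ζ' ∈ S`, `ζ' < ζ`
  have hex : ∃ g : O0 → O0, ∀ ζ, (∀ ζ' ∈ S, ζ' < ζ → g ζ' < g ζ) ∧
      ∀ γ < g ζ, ∃ ζ' ∈ S, ζ' < ζ ∧ γ ≤ g ζ' := by
    let F : (x : O0) → ((y : O0) → y < x → O0) → O0 := fun x r =>
      sInf {γ | ∀ y (hy : y < x), y ∈ S → r y hy < γ}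
    let g : O0 → O0 := (wellFounded_lt (α := O0)).fix F
    have hg : ∀ x, g x = sInf {γ | ∀ y, y < x → y ∈ S → g y < γ} := by
      intro x
      exact (wellFounded_lt (α := O0)).fix_eq F x
    refine ⟨g, fun ζ => ?_⟩
    have hne : {γ | ∀ y, y < ζ → y ∈ S → g y < γ}.Nonempty := by
      obtain ⟨B, hB⟩ : BddAbove (g '' Set.Iio ζ) := Ordinal.bddAbove_of_small
      exact ⟨B + 1, fun y hy _ => Order.lt_add_one_iff.2 (hB ⟨y, hy, rfl⟩)⟩
    have h1 := csInf_mem hne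
    rw [← hg ζ] at h1
    refine ⟨fun ζ' h2 h3 => h1 ζ' h3 h2, fun γ hγ => ?_⟩
    by_contra hcon
    push Not at hcon
    rw [hg ζ] at hγ
    exact notMem_of_lt_csInf hγ (OrderBot.bddBelow _) fun y hy hyS => hcon y hyS hy
  obtain ⟨g, hg⟩ := hex
  refine ⟨g, fun ζ hζ => ?_, fun ζ hζ ζ' hζ' h => (hg ζ').1 ζ hζ h⟩
  -- `g ζ` is countable
  by_contra hlt
  have h1 : w1 ≤ g ζ := not_lt.1 hlt
  have key : Set.Iio (g ζ) ⊆ ⋃ ζ' ∈ {ζ' | ζ' < ζ ∧ ζ' ∈ S}, Set.Iic (g ζ') := by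
    intro γ hγ
    obtain ⟨ζ', h2, h3, h4⟩ := (hg ζ).2 γ hγ
    simp only [Set.mem_iUnion]
    exact ⟨ζ', ⟨h3, h2⟩, h4⟩
  -- take the least counterexample
  obtain ⟨ζ, ⟨hζ, hge⟩, hmin⟩ := WellFounded.has_min (wellFounded_lt (α := O0))
    {ζ | ζ ∈ S ∧ w1 ≤ g ζ} ⟨ζ, hζ, h1⟩
  have key : Set.Iio (g ζ) ⊆ ⋃ ζ' ∈ {ζ' | ζ' < ζ ∧ ζ' ∈ S}, Set.Iic (g ζ') := by
    intro γ hγ
    obtain ⟨ζ', h2, h3, h4⟩ := (hg ζ).2 γ hγ
    simp only [Set.mem_iUnion]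
    exact ⟨ζ', ⟨h3, h2⟩, h4⟩
  refine not_countable_Iio hge (Set.Countable.mono key ?_)
  refine Set.Countable.biUnion (hc ζ (hS ζ hζ)) fun ζ' hζ' => ?_
  have h5 : g ζ' < w1 := by
    by_contra h6
    exact hmin ζ' ⟨hζ'.2, not_lt.1 h6⟩ hζ'.1
  have h6 : Set.Iic (g ζ') = Set.Iio (g ζ' + 1) := by
    ext x; simp [Order.lt_add_one_iff]
  rw [h6]
  exact countable_Iio (lim_w1.add_one_lt h5)

end Pool.Agent.H82.CS
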