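import Pool.Agent.H82.CS.Run
import Pool.Agent.H86.Narrow

/-!
# The product forcing and its names
-/

set_option linter.unusedVariables false
set_option linter.unusedSectionVars false

namespace Pool.Agent.H82.CS

open Pool.Agent.H86 Ordinal Name

/-- the forcing order -/
abbrev QQ : Type 1 := Coh × Sq

/-- the trivial group -/
abbrev GG : Type 1 := PUnit.{2}

instance : MulAction GG QQ where
  smul _ q := q
  one_smul _ := rfl
  mul_smul _ _ _ := rfl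

/-- the trivial symmetric system -/
def SS : SymSys QQ GG where
  smul_mono := fun _ _ _ h => h
  large := fun _ => True
  large_top := trivial
  large_inf := fun _ _ _ _ => trivial
  large_conj := fun g H _ => ⟨⊥, trivial, fun k hk => by
    have : g⁻¹ * k * g = 1 := rfl
    rw [this]; exact H.one_mem⟩

theorem HS_all (X : Name QQ) : SS.HS X := by
  induction X using Name.ind with
  | h X ih =>
    rw [SymSys.HS_def]
    refine ⟨⟨⊤, trivial, fun g _ q => ?_⟩, ih⟩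
    have : g = 1 := rfl
    rw [this, Name.act_one]
    exact feq_refl _ _

/-- any name as an element of the structure -/
def nm (X : Name QQ) : SS.HN := ⟨X, HS_all X⟩

/-- the canonical name of an ordinal -/
noncomputable def o (α : O0) : SS.HN := SS.hO (Ordinal.lift.{1} α)

theorem mem_o {α : O0} {X : SS.HN} {p : QQ} :
    fmem X.1 (o α).1 p ↔ ∀ q ≤ p, ∃ r ≤ q, ∃ β < α, feq X.1 (o β).1 r := by
  show fmem X.1 (oName QQ _) p ↔ _
  rw [fmem_oName]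
  constructor
  · intro h q hq
    obtain ⟨r, hr, β, hβ, h1⟩ := h q hq
    obtain ⟨β', hβ', rfl⟩ := Ordinal.lt_lift_iff.1 hβ
    exact ⟨r, hr, β', hβ', h1⟩
  · intro h q hq
    obtain ⟨r, hr, β, hβ, h1⟩ := h q hq
    exact ⟨r, hr, _, Ordinal.lift_lt.2 hβ, h1⟩

theorem feq_o {α β : O0} {p : QQ} : feq (o α).1 (o β).1 p ↔ α = β := by
  show feq (oName QQ _) (oName QQ _) p ↔ _
  rw [feq_oName_iff, Ordinal.lift_inj]

theorem fmem_o {α β : O0} {p : QQ} : fmem (o β).1 (o α).1 p ↔ β < α := by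
  show fmem (oName QQ _) (oName QQ _) p ↔ _
  rw [fmem_oName_iff, Ordinal.lift_lt]

theorem ord_o (α : O0) (p : QQ) : (fOrd SS.FS (o α)).holds p := SS.fOrd_hO _ p

theorem mem_o' {α : O0} {X : SS.HN} {p : QQ} (h : fmem X.1 (o α).1 p) :
    ∃ r ≤ p, ∃ β < α, feq X.1 (o β).1 r := mem_o.1 h p le_rfl

theorem fmem_of_feq {α β : O0} {X : SS.HN} {p : QQ} (h : feq X.1 (o β).1 p) (hβ : β < α) :
    fmem X.1 (o α).1 p := fmem_congr_left (feq_symm h) (fmem_o.2 hβ)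

theorem feq_of_fmem_feq {α β : O0} {X : SS.HN} {p : QQ} (h : feq X.1 (o β).1 p)
    (h' : fmem X.1 (o α).1 p) : β < α := fmem_o.1 (fmem_congr_left h h')

/-! ### names of relations between ordinals -/

/-- the name of the relation `D` -/
noncomputable def rn (D : O0 → O0 → QQ → Prop) : SS.HN :=
  nm (relN {x : (O0 × O0) × QQ // D x.1.1 x.1.2 x.2} (fun x => (o x.1.1.1).1)
    (fun x => (o x.1.1.2).1) (fun x => x.1.2))

theorem R_rn {D : O0 → O0 → QQ → Prop} (hD : ∀ α β p q, q ≤ p → D α β p → D α β q)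
    {X Y : SS.HN} {p : QQ} :
    SS.R (rn D) X Y p ↔
      ∀ q ≤ p, ∃ r ≤ q, ∃ α β, D α β r ∧ feq X.1 (o α).1 r ∧ feq Y.1 (o β).1 r := by
  unfold rn nm
  rw [SymSys.R_relN]
  constructor
  · intro h q hq
    obtain ⟨r, hr, ⟨⟨⟨α, β⟩, q'⟩, hq'⟩, h1, h2, h3⟩ := h q hq
    exact ⟨r, hr, α, β, hD _ _ _ _ h1 hq', h2, h3⟩
  · intro h q hq
    obtain ⟨r, hr, α, β, h1, h2, h3⟩ := h q hq
    exact ⟨r, hr, ⟨⟨⟨α, β⟩, r⟩, h1⟩, le_rfl, h2, h3⟩

theorem R_rn_o {D : O0 → O0 → QQ → Prop} (hD : ∀ α β p q, q ≤ p → D α β p → D α β q)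
    {α β : O0} {p : QQ} :
    SS.R (rn D) (o α) (o β) p ↔ ∀ q ≤ p, ∃ r ≤ q, D α β r := by
  rw [R_rn hD]
  constructor
  · intro h q hq
    obtain ⟨r, hr, α', β', h1, h2, h3⟩ := h q hq
    rw [feq_o] at h2 h3
    subst h2 h3
    exact ⟨r, hr, h1⟩
  · intro h q hq
    obtain ⟨r, hr, h1⟩ := h q hq
    exact ⟨r, hr, α, β, h1, feq_refl _ _, feq_refl _ _⟩

theorem fFun_rn {D : O0 → O0 → QQ → Prop} (hD : ∀ α β p q, q ≤ p → D α β p → D α β q) {p : QQ}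
    (h : ∀ α β β', ∀ q ≤ p, D α β q → D α β' q → β = β') : (fFun SS.FS (rn D)).holds p := by
  unfold rn nm
  refine SS.fFun_relN (a := fun x : {x : (O0 × O0) × QQ // D x.1.1 x.1.2 x.2} => o x.1.1.1)
    (b := fun x => o x.1.1.2) (c := fun x => x.1.2) ?_
  rintro ⟨⟨⟨α, β⟩, q⟩, hq⟩ ⟨⟨⟨α', β'⟩, q'⟩, hq'⟩ r hr h1 h2 h3
  have e : α = α' := feq_o.1 h3
  subst e
  have := h α β β' r hr (hD _ _ _ _ h1 hq) (hD _ _ _ _ h2 hq')
  subst this
  exact feq_refl _ _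

theorem fInj_rn {D : O0 → O0 → QQ → Prop} (hD : ∀ α β p q, q ≤ p → D α β p → D α β q) {p : QQ}
    (h : ∀ α α' β, ∀ q ≤ p, D α β q → D α' β q → α = α') : (fInj SS.FS (rn D)).holds p := by
  unfold rn nm
  refine SS.fInj_relN (a := fun x : {x : (O0 × O0) × QQ // D x.1.1 x.1.2 x.2} => o x.1.1.1)
    (b := fun x => o x.1.1.2) (c := fun x => x.1.2) ?_
  rintro ⟨⟨⟨α, β⟩, q⟩, hq⟩ ⟨⟨⟨α', β'⟩, q'⟩, hq'⟩ r hr h1 h2 h3
  have e : β = β' := feq_o.1 h3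
  subst e
  have := h α α' β r hr (hD _ _ _ _ h1 hq) (hD _ _ _ _ h2 hq')
  subst this
  exact feq_refl _ _

/-! ### names of sets of ordinals -/

/-- the name of a set of ordinals -/
noncomputable def sn (D : O0 → QQ → Prop) : SS.HN :=
  nm (Name.mk {x : O0 × QQ // D x.1 x.2} (fun x => (o x.1.1).1) (fun x => x.1.2))

theorem fmem_sn {D : O0 → QQ → Prop} (hD : ∀ α p q, q ≤ p → D α p → D α q)
    {X : SS.HN} {p : QQ} :
    fmem X.1 (sn D).1 p ↔ ∀ q ≤ p, ∃ r ≤ q, ∃ α, D α r ∧ feq X.1 (o α).1 r := by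
  constructor
  · intro h q hq
    obtain ⟨r, hr, ⟨⟨α, q'⟩, hq'⟩, h1, h2⟩ := h q hq
    exact ⟨r, hr, α, hD _ _ _ h1 hq', h2⟩
  · intro h q hq
    obtain ⟨r, hr, α, h1, h2⟩ := h q hq
    exact ⟨r, hr, ⟨⟨α, r⟩, h1⟩, le_rfl, h2⟩

theorem fmem_sn_o {D : O0 → QQ → Prop} (hD : ∀ α p q, q ≤ p → D α p → D α q)
    {α : O0} {p : QQ} :
    fmem (o α).1 (sn D).1 p ↔ ∀ q ≤ p, ∃ r ≤ q, D α r := by
  rw [fmem_sn hD]
  constructor
  · intro h q hq
    obtain ⟨r, hr, α', h1, h2⟩ := h q hq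
    rw [feq_o] at h2
    subst h2
    exact ⟨r, hr, h1⟩
  · intro h q hq
    obtain ⟨r, hr, h1⟩ := h q hq
    exact ⟨r, hr, α, h1, feq_refl _ _⟩

/-! ### names of functions from ordinals to arbitrary names -/

/-- the name of the sequence `⟨F α : α < κ⟩` -/
noncomputable def qn (κ : O0) (F : O0 → SS.HN) : SS.HN :=
  nm (relN {α : O0 // α < κ} (fun x => (o x.1).1) (fun x => (F x.1).1) (fun _ => ⊤))

theorem R_qn {κ : O0} {F : O0 → SS.HN} {X Y : SS.HN} {p : QQ} :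
    SS.R (qn κ F) X Y p ↔
      ∀ q ≤ p, ∃ r ≤ q, ∃ α < κ, feq X.1 (o α).1 r ∧ feq Y.1 (F α).1 r := by
  unfold qn nm
  rw [SymSys.R_relN]
  constructor
  · intro h q hq
    obtain ⟨r, hr, ⟨α, hα⟩, h1, h2, h3⟩ := h q hq
    exact ⟨r, hr, α, hα, h2, h3⟩
  · intro h q hq
    obtain ⟨r, hr, α, h1, h2, h3⟩ := h q hq
    exact ⟨r, hr, ⟨α, h1⟩, le_top, h2, h3⟩

theorem R_qn_o {κ : O0} {F : O0 → SS.HN} {α : O0} {Y : SS.HN} {p : QQ} :
    SS.R (qn κ F) (o α) Y p ↔ α < κ ∧ feq Y.1 (F α).1 p := by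
  rw [R_qn]
  constructor
  · intro h
    refine ⟨?_, feq_reg fun q hq => ?_⟩
    · obtain ⟨r, hr, α', h1, h2, h3⟩ := h p le_rfl
      rw [feq_o] at h2
      rw [h2]; exact h1
    · obtain ⟨r, hr, α', h1, h2, h3⟩ := h q hq
      rw [feq_o] at h2
      subst h2
      exact ⟨r, hr, h3⟩
  · rintro ⟨h1, h2⟩ q hq
    exact ⟨q, le_rfl, α, h1, feq_refl _ _, feq_mono hq h2⟩

theorem fFun_qn (κ : O0) (F : O0 → SS.HN) (p : QQ) : (fFun SS.FS (qn κ F)).holds p := by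
  unfold qn nm
  refine SS.fFun_relN (a := fun x : {α : O0 // α < κ} => o x.1)
    (b := fun x => F x.1) (c := fun x => ⊤) ?_
  rintro ⟨α, hα⟩ ⟨α', hα'⟩ r hr h1 h2 h3
  have e : α = α' := feq_o.1 h3
  subst e
  exact feq_refl _ _

/-! ### combining conditions -/

theorem le_fst {p q : QQ} (h : p ≤ q) : p.1 ≤ q.1 := h.1
theorem le_snd {p q : QQ} (h : p ≤ q) : p.2 ≤ q.2 := h.2

end Pool.Agent.H82.CS
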