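import Pool.Agent.H82.CS.Guess

/-!
# Many reals, and the axiom of choice
-/

set_option linter.unusedVariables false
set_option linter.unusedSectionVars false

namespace Pool.Agent.H82.CS

open Pool.Agent.H86 Ordinal Name

/-- the value of a bit as an ordinal -/
noncomputable def bt (c : Bool) : O0 := if c then 1 else 0

theorem bt_inj {c d : Bool} (h : bt c = bt d) : c = d := by
  cases c <;> cases d <;> simp [bt] at h ⊢

/-- membership in the graph of the real with index `α` -/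
def DR (α : O0) : O0 → O0 → QQ → Prop := fun n b q =>
  ∃ (k : ℕ) (c : Bool), n = k ∧ b = bt c ∧ q.1.f (α, k) = some c

theorem DR_mono (α : O0) : ∀ n b p q, q ≤ p → DR α n b p → DR α n b q := by
  rintro n b p q hq ⟨k, c, h1, h2, h3⟩
  exact ⟨k, c, h1, h2, hq.1 _ _ h3⟩

theorem DR_uniq {α n b b' : O0} {q : QQ} (h : DR α n b q) (h' : DR α n b' q) : b = b' := by
  obtain ⟨k, c, h1, h2, h3⟩ := h
  obtain ⟨k', c', h1', h2', h3'⟩ := h'
  have e : k = k' := by
    rw [h1] at h1'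
    exact_mod_cast h1'
  subst e
  rw [h3] at h3'
  rw [h2, h2', Option.some.inj h3']

/-- the name of the real with index `α` -/
noncomputable def real (α : O0) : SS.HN := rn (DR α)

theorem exists_bit (α : O0) (k : ℕ) (p : QQ) : ∃ q ≤ p, ∃ c, q.1.f (α, k) = some c := by
  by_cases h : p.1.f (α, k) = none
  · have hle : Coh.un p.1 (Coh.one (α, k) true) ≤ Coh.one (α, k) true := by
      apply Coh.un_le_right
      intro x a b ha hb
      by_cases hx : x = (α, k)
      · subst hx; rw [h] at ha; simp at ha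
      · simp [Coh.one, hx] at hb
    exact ⟨(Coh.un p.1 (Coh.one (α, k) true), p.2), ⟨Coh.un_le_left _ _, le_rfl⟩, true,
      Coh.le_one_iff.1 hle⟩
  · obtain ⟨c, hc⟩ := Option.ne_none_iff_exists'.1 h
    exact ⟨p, le_rfl, c, hc⟩

theorem real_funOn (α : O0) (p : QQ) : (fFunOn SS.FS (real α) (o ω) (o w1)).holds p := by
  refine ⟨fFun_rn (DR_mono α) fun n b b' q _ h h' => DR_uniq h h', fun X =>
    ⟨fun q hq hX r hr => ?_, fun q hq hX => mem_o.2 fun r hr => ?_⟩, fun X Y q hq h => ?_⟩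
  · obtain ⟨s, hs, n, hn, h1⟩ := mem_o.1 hX r hr
    obtain ⟨k, rfl⟩ := Ordinal.lt_omega0.1 hn
    obtain ⟨u, hu, c, hc⟩ := exists_bit α k s
    refine ⟨u, hu.trans hs, o (bt c), SS.holds_fRel.2 ?_⟩
    unfold real
    rw [R_rn (DR_mono α)]
    intro v hv
    exact ⟨v, le_rfl, (k : O0), bt c, ⟨k, c, rfl, rfl, hv.1 _ _ hc⟩,
      feq_mono (hv.trans hu) h1, feq_refl _ _⟩
  · obtain ⟨s, hs, Y, hY⟩ := hX r hr
    rw [SS.holds_fRel] at hY
    unfold real at hY
    rw [R_rn (DR_mono α)] at hY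
    obtain ⟨u, hu, n, b, ⟨k, c, h1, h2, h3⟩, h4, _⟩ := hY s le_rfl
    subst h1
    exact ⟨u, hu.trans hs, k, natCast_lt_omega0 k, h4⟩
  · rw [SS.holds_fRel] at h
    unfold real at h
    rw [R_rn (DR_mono α)] at h
    refine mem_o.2 fun r hr => ?_
    obtain ⟨u, hu, n, b, ⟨k, c, h1, h2, h3⟩, _, h4⟩ := h r hr
    refine ⟨u, hu, b, ?_, h4⟩
    rw [h2]
    refine lt_of_lt_of_le (b := ω) ?_ omega0_lt_omega_one.le
    cases c
    · simpa [bt] using omega0_pos
    · simpa [bt] using one_lt_omega0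

theorem real_inj {α α' : O0} {p : QQ} (h : feq (real α).1 (real α').1 p) : α = α' := by
  by_contra hne
  -- a fresh coordinate
  obtain ⟨k, hk⟩ : ∃ k : ℕ, k ∉ Prod.snd '' {x | p.1.f x ≠ none} :=
    (p.1.fin.image Prod.snd).exists_notMem
  have h0 : ∀ β, p.1.f (β, k) = none := by
    intro β
    by_contra hc
    exact hk ⟨(β, k), hc, rfl⟩
  set c1 := Coh.un (Coh.one (α, k) true) (Coh.one (α', k) false) with hc1
  have e1 : c1.f (α, k) = some true := Coh.le_one_iff.1 (Coh.un_le_left _ _)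
  have hr : c1 ≤ Coh.one (α', k) false := by
    apply Coh.un_le_right
    intro x a b ha hb
    by_cases hx : x = (α, k)
    · subst hx
      have : (α, k) ≠ (α', k) := fun h => hne (congrArg Prod.fst h)
      simp [Coh.one, this] at hb
    · simp [Coh.one, hx] at ha
  have e2 : c1.f (α', k) = some false := Coh.le_one_iff.1 hr
  have hdom : ∀ x, c1.f x ≠ none → x.2 = k := by
    intro x hx
    by_contra hxk
    have h1 : x ≠ (α, k) := fun h => hxk (by rw [h])
    have h2 : x ≠ (α', k) := fun h => hxk (by rw [h])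
    apply hx
    show ((Coh.one (α, k) true).f x).orElse _ = none
    simp [Coh.one, h1, h2]
  set c2 := Coh.un p.1 c1 with hc2
  have h3 : c2 ≤ c1 := by
    apply Coh.un_le_right
    intro x a b ha hb
    have : x.2 = k := hdom x (by rw [hb]; simp)
    have h4 : p.1.f x = none := by
      have := h0 x.1
      rwa [← ‹x.2 = k›] at this
    rw [h4] at ha
    simp at ha
  have hle : ((c2, p.2) : QQ) ≤ p := ⟨Coh.un_le_left _ _, le_rfl⟩
  have a1 : SS.R (real α) (o (k : O0)) (o (bt true)) (c2, p.2) := by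
    unfold real
    rw [R_rn_o (DR_mono α)]
    intro q hq
    exact ⟨q, le_rfl, k, true, rfl, rfl, hq.1 _ _ (h3 _ _ e1)⟩
  have a2 : SS.R (real α') (o (k : O0)) (o (bt false)) (c2, p.2) := by
    unfold real
    rw [R_rn_o (DR_mono α')]
    intro q hq
    exact ⟨q, le_rfl, k, false, rfl, rfl, hq.1 _ _ (h3 _ _ e2)⟩
  have a3 : SS.R (real α) (o (k : O0)) (o (bt false)) (c2, p.2) :=
    SS.R_congr (feq_symm (feq_mono hle h)) (feq_refl _ _) (feq_refl _ _) a2
  have hfun : (fFun SS.FS (real α)).holds (c2, p.2) := (real_funOn α (c2, p.2)).1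
  have := R_uniq_o hfun le_rfl a1 a3
  exact absurd (bt_inj this) (by simp)

theorem not_powLe (p : QQ) : ¬ (fPowLe SS.FS (o ω) (o w1)).holds p := by
  intro hp
  obtain ⟨q, hq, h, hf, hi, ht⟩ := hp p le_rfl
  let D : O0 → O0 → QQ → Prop := fun α ζ s => s ≤ q ∧ SS.R h (real α) (o ζ) s
  have hD : ∀ α β p' q', q' ≤ p' → D α β p' → D α β q' := fun α β p' q' hqp hd =>
    ⟨hqp.trans hd.1, SS.R_mono hqp hd.2⟩
  refine no_inj_w2 q fun q1 hq1 => ⟨q1, le_rfl, rn D, fFun_rn hD ?_, fInj_rn hD ?_, ?_⟩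
  · rintro α β β' s _ ⟨h1, h2⟩ ⟨_, h3⟩
    exact R_uniq_o hf h1 h2 h3
  · rintro α α' β s _ ⟨h1, h2⟩ ⟨_, h3⟩
    exact real_inj (R_inj hi h1 h2 h3)
  · intro X r hr hX s hs
    obtain ⟨u, hu, α, hα, h1⟩ := mem_o.1 hX s hs
    have huq : u ≤ q := hu.trans (hs.trans (hr.trans hq1))
    obtain ⟨v, hv, Y, hY1, hY2⟩ := ht (real α) u huq (real_funOn α u) u le_rfl
    rw [SS.holds_fRel] at hY2
    obtain ⟨w, hw, ζ, hζ, h2⟩ := mem_o' hY1
    refine ⟨w, hw.trans (hv.trans hu), o ζ, fmem_o.2 hζ, SS.holds_fRel.2 ?_⟩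
    rw [R_rn hD]
    intro x hx
    refine ⟨x, le_rfl, α, ζ, ⟨hx.trans (hw.trans (hv.trans huq)), ?_⟩,
      feq_mono (hx.trans (hw.trans hv)) h1, feq_refl _ _⟩
    exact SS.R_congr (feq_refl _ _) (feq_refl _ _) (feq_mono hx h2)
      (SS.R_mono (hx.trans hw) hY2)

/-- every set is covered by the values of a function on ordinals -/
theorem forced_cov (X : SS.HN) (p : QQ) : (fCov SS.FS X).holds p := by
  classical
  intro q hq
  let code : X.1.ι → Ordinal.{1} := fun i => Ordinal.typein (WellOrderingRel (α := X.1.ι)) i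
  have hinj : ∀ i j, code i = code j → i = j := fun i j h => Ordinal.typein_injective _ h
  let F : SS.HN := nm (relN X.1.ι (fun i => (SS.hO (code i)).1) (fun i => (nm (X.1.el i)).1)
    (fun _ => ⊤))
  have hF : ∀ {Y Z : SS.HN} {p : QQ}, SS.R F Y Z p ↔ ∀ q ≤ p, ∃ r ≤ q, ∃ i,
      feq Y.1 (SS.hO (code i)).1 r ∧ feq Z.1 (X.1.el i) r := by
    intro Y Z p
    show SS.R (nm _) Y Z p ↔ _
    unfold nm
    rw [SymSys.R_relN]
    simp only [le_top, true_and]
  refine ⟨q, le_rfl, F, ?_, ?_, ?_, ?_⟩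
  · refine SS.fFun_relN (a := fun i => SS.hO (code i)) (b := fun i => nm (X.1.el i))
      (c := fun _ => ⊤) ?_
    intro i j r hr h1 h2 h3
    have e : i = j := hinj i j (feq_oName_iff.1 h3)
    subst e
    exact feq_refl _ _
  · intro Y Z r hr h
    rw [SS.holds_fRel] at h
    apply (fOrd SS.FS Y).reg
    intro s hs
    obtain ⟨u, hu, i, h1, h2⟩ := hF.1 h s hs
    refine ⟨u, hu, ?_⟩
    exact (SS.eval_eq_iff (fOrd codeStr 0 1) (asg2 Y Y) (asg2 (SS.hO (code i)) (SS.hO (code i))) u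
      (fun j _ => asg2_congr h1 h1 j)).2 (SS.fOrd_hO _ u)
  · intro Y Z Y' Z' r hr h r' hr' h'
    rw [SS.holds_fRel] at h h'
    intro s hs
    obtain ⟨u, hu, i, h1, h2⟩ := hF.1 h s (hs.trans hr')
    obtain ⟨v, hv, j, h3, h4⟩ := hF.1 h' u (hu.trans hs)
    have h1' := feq_mono hv h1
    refine ⟨v, hv.trans hu, ?_⟩
    rcases lt_trichotomy (code i) (code j) with h5 | h5 | h5
    · left
      exact fmem_congr_left (feq_symm h1') (fmem_congr_right (feq_symm h3)
        (fmem_oName_of_lt h5 v))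
    · right
      intro w hw
      refine ⟨w, le_rfl, Or.inl ?_⟩
      have e : i = j := hinj i j h5
      subst e
      exact feq_mono hw (feq_trans h1' (feq_symm h3))
    · right
      intro w hw
      refine ⟨w, le_rfl, Or.inr ?_⟩
      exact fmem_mono hw (fmem_congr_left (feq_symm h3) (fmem_congr_right (feq_symm h1')
        (fmem_oName_of_lt h5 v)))
  · intro Y r hr hY s hs
    obtain ⟨u, hu, i, h1, h2⟩ := hY s hs
    refine ⟨u, hu, SS.hO (code i), SS.holds_fRel.2 (hF.2 fun v hv => ?_)⟩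
    exact ⟨v, le_rfl, i, feq_refl _ _, feq_mono hv h2⟩

end Pool.Agent.H82.CS
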