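import Pool.Agent.H82.CS.Sq

/-!
# Descending runs of length at most `ω₁`
-/

set_option linter.unusedVariables false
set_option linter.unusedSectionVars false

namespace Pool.Agent.H82.CS

open Pool.Agent.H86 Ordinal

theorem exists_run (st : O0 → Sq → Sq × SV)
    (h1 : ∀ i t, (st i t).1 ≤ t) (h2 : ∀ i t, t.len < (st i t).1.len)
    (h3 : ∀ i t ζ p, ((st i t).2.v ζ).holds p → t.len ≤ ζ ∧ ζ < (st i t).1.len)
    (h4 : ∀ i t, Order.IsSuccLimit i → (st i t).2 = SV.chk t.len)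
    (t0 : Sq) :
    ∃ t : O0 → Sq, t 0 = t0 ∧ (∀ i, t (i + 1) = (st i (t i)).1) ∧
      ∀ i ≤ w1, (∀ k < i, t i ≤ t k ∧ (t k).len < (t i).len) ∧
        (Order.IsSuccLimit i → (∀ δ < (t i).len, ∃ l < i, δ < (t l).len) ∧
          ∀ ζ p, ((t i).c (t i).len ζ).holds p ↔ ∃ l < i, ((st l (t l)).2.v ζ).holds p) := by
  classical
  let P : (i : O0) → ((k : O0) → k < i → Sq) → Sq → Prop := fun i t s =>
    (∀ k hk, s ≤ t k hk ∧ (t k hk).len < s.len) ∧ (∀ δ < s.len, ∃ l hl, δ < (t l hl).len) ∧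
      ∀ ζ p, (s.c s.len ζ).holds p ↔ ∃ l hl, ((st l (t l hl)).2.v ζ).holds p
  let t : O0 → Sq := fun i => limitRecOn i t0 (fun i ti => (st i ti).1)
    (fun i hi t => if h : ∃ s, P i t s then h.choose else t0)
  have ht0 : t 0 = t0 := limitRecOn_zero _ _ _
  have hts : ∀ i, t (i + 1) = (st i (t i)).1 := fun i => limitRecOn_add_one _ _ _ _
  have htl : ∀ i, Order.IsSuccLimit i → (∃ s, P i (fun k _ => t k) s) →
      P i (fun k _ => t k) (t i) := by
    intro i hi h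
    have e : t i = if h : ∃ s, P i (fun k _ => t k) s then h.choose else t0 :=
      limitRecOn_limit _ _ _ _ hi
    rw [e, dif_pos h]
    exact h.choose_spec
  refine ⟨t, ht0, hts, ?_⟩
  intro i
  induction i using WellFoundedLT.induction with
  | ind i ih =>
    intro hi
    rcases Ordinal.zero_or_succ_or_isSuccLimit i with rfl | ⟨i', rfl⟩ | hlim
    · exact ⟨fun k hk => (not_lt_bot hk).elim, fun h => (h.ne_bot rfl).elim⟩
    · have hi' : i' < i' + 1 := lt_add_one _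
      have ih' := ih i' hi' (hi'.le.trans hi)
      refine ⟨fun k hk => ?_, fun h => (Order.not_isSuccLimit_add_one _ h).elim⟩
      have e1 : t (i' + 1) ≤ t i' := by rw [hts]; exact h1 _ _
      have e2 : (t i').len < (t (i' + 1)).len := by rw [hts]; exact h2 _ _
      rcases (Order.lt_add_one_iff.1 hk).lt_or_eq with h | rfl
      · exact ⟨e1.trans (ih'.1 k h).1, (ih'.1 k h).2.trans e2⟩
      · exact ⟨e1, e2⟩
    · have hex : ∃ s, P i (fun k _ => t k) s := by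
        obtain ⟨s, hs1, hs2, hs3, hs4⟩ := exists_lim hlim hi t (fun k => (st k (t k)).2)
          (fun k l hkl hl => by
            rcases hkl.lt_or_eq with h | rfl
            · exact ((ih l hl (hl.le.trans hi)).1 k h).1
            · exact le_rfl)
          (fun k hk => by rw [hts]; exact h2 _ _)
          (fun k hk hkl => (ih k hk (hk.le.trans hi)).2 hkl)
          (fun k hk ζ p h => by rw [hts]; exact h3 _ _ _ _ h)
          (fun k hk hkl ζ p => by rw [h4 k _ hkl]; exact SV.chk_holds)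
        refine ⟨s, fun k hk => ⟨hs1 k hk, hs3 k hk⟩, fun δ hδ => ?_, fun ζ p => ?_⟩
        · obtain ⟨l, hl, h⟩ := hs2 δ hδ
          exact ⟨l, hl, h⟩
        · rw [hs4]
          constructor
          · rintro ⟨l, hl, h⟩; exact ⟨l, hl, h⟩
          · rintro ⟨l, hl, h⟩; exact ⟨l, hl, h⟩
      have hP := htl i hlim hex
      refine ⟨hP.1, fun _ => ⟨fun δ hδ => ?_, fun ζ p => ?_⟩⟩
      · obtain ⟨l, hl, h⟩ := hP.2.1 δ hδ
        exact ⟨l, hl, h⟩
      · rw [hP.2.2]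
        constructor
        · rintro ⟨l, hl, h⟩; exact ⟨l, hl, h⟩
        · rintro ⟨l, hl, h⟩; exact ⟨l, hl, h⟩

/-- A simple run of length `ω₁`: at each step a relation can be met. -/
theorem exists_simple_run (R : O0 → Sq → Sq → Prop) (hR : ∀ i t, ∃ t' ≤ t, R i t t')
    (hR' : ∀ i t t' t'', t'' ≤ t' → R i t t' → R i t t'') (t0 : Sq) :
    ∃ t : O0 → Sq, t 0 = t0 ∧ (∀ i, R i (t i) (t (i + 1))) ∧
      ∀ i ≤ w1, ∀ k < i, t i ≤ t k ∧ (t k).len < (t i).len := by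
  classical
  choose nx hnx1 hnx2 using hR
  obtain ⟨t, ht0, hts, hrun⟩ := exists_run (fun i t => ((nx i t).suc, SV.chk t.len))
    (fun i t => (Sq.suc_le _).trans (hnx1 i t))
    (fun i t => by
      have := Sq.len_mono (hnx1 i t)
      exact this.trans_lt (lt_add_one _))
    (fun i t ζ p h => by
      rw [SV.chk_holds] at h
      rw [h]
      exact ⟨le_rfl, (Sq.len_mono (hnx1 i t)).trans_lt (lt_add_one _)⟩)
    (fun i t _ => rfl) t0
  refine ⟨t, ht0, fun i => ?_, fun i hi => (hrun i hi).1⟩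
  rw [hts]
  exact hR' _ _ _ _ (Sq.suc_le _) (hnx2 i (t i))

/-- Conditions can be lengthened. -/
theorem exists_len (α : O0) (hα : α < w2) : ∀ t : Sq, ∃ t' ≤ t, α ≤ t'.len := by
  classical
  induction α using WellFoundedLT.induction with
  | ind α ih =>
    intro t0
    obtain ⟨f, hf⟩ := exists_enum hα
    obtain ⟨t, ht0, htR, hrun⟩ := exists_simple_run (fun i t t' => f i < α → f i ≤ t'.len)
      (fun i t => by
        by_cases h : f i < α
        · obtain ⟨t', h1, h2⟩ := ih (f i) h (h.trans hα) t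
          exact ⟨t', h1, fun _ => h2⟩
        · exact ⟨t, le_rfl, fun h' => (h h').elim⟩)
      (fun i t t' t'' h1 h2 h3 => (h2 h3).trans (Sq.len_mono h1)) t0
    have h0 : (0 : O0) < w1 := omega_pos _
    refine ⟨t w1, by rw [← ht0]; exact (hrun w1 le_rfl 0 h0).1, ?_⟩
    by_contra hc
    obtain ⟨k, hk, h1⟩ := hf _ (not_le.1 hc)
    have h2 := htR k (by rw [h1]; exact not_le.1 hc)
    have h3 := (hrun w1 le_rfl (k + 1) (lim_w1.add_one_lt hk)).2
    rw [h1] at h2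
    exact absurd (h2.trans_lt h3) (lt_irrefl _)

/-- Decisions by Cohen conditions. -/
theorem exists_good (D : Coh → Sq → O0 → Prop)
    (mono : ∀ {p q s t ζ}, q ≤ p → t ≤ s → D p s ζ → D q t ζ)
    (t0 : Sq) (p0 : Coh)
    (dense : ∀ p ≤ p0, ∀ t ≤ t0, ∃ q ≤ p, ∃ t' ≤ t, ∃ ζ, D q t' ζ) :
    ∃ t ≤ t0, ∀ p ≤ p0, ∃ q ≤ p, ∃ ζ, D q t ζ := by
  classical
  by_contra hcon
  push Not at hcon
  obtain ⟨t, ht0, htR, hrun⟩ := exists_simple_run
    (fun i t t' => t ≤ t0 → ∃ p q ζ, (∀ r ≤ p, ∀ ξ, ¬ D r t ξ) ∧ q ≤ p ∧ D q t' ζ)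
    (fun i t => by
      by_cases h : t ≤ t0
      · obtain ⟨p, hp0, hp⟩ := hcon t h
        obtain ⟨q, hq, t', ht', ζ, hζ⟩ := dense p hp0 t h
        exact ⟨t', ht', fun _ => ⟨p, q, ζ, hp, hq, hζ⟩⟩
      · exact ⟨t, le_rfl, fun h' => (h h').elim⟩)
    (fun i t t' t'' h1 h2 h3 => by
      obtain ⟨p, q, ζ, h4, h5, h6⟩ := h2 h3
      exact ⟨p, q, ζ, h4, h5, mono le_rfl h1 h6⟩) t0
  have hle : ∀ i < w1, t i ≤ t0 := fun i hi => by
    rcases eq_or_ne i 0 with rfl | h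
    · rw [ht0]
    · rw [← ht0]; exact (hrun i hi.le 0 (pos_iff_ne_zero.2 h)).1
  have hex : ∀ i : O0, ∃ p q : Coh, i < w1 → (∀ r ≤ p, ∀ ξ, ¬ D r (t i) ξ) ∧ q ≤ p ∧
      ∃ ζ, D q (t (i + 1)) ζ := by
    intro i
    by_cases h : i < w1
    · obtain ⟨p, q, ζ, h1, h2, h3⟩ := htR i (hle i h)
      exact ⟨p, q, fun _ => ⟨h1, h2, ζ, h3⟩⟩
    · exact ⟨⊤, ⊤, fun h' => (h h').elim⟩
  choose p q hpq using hex
  have key : ∀ i j, i < j → j < w1 → ¬ Coh.Comp (q i) (q j) := by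
    rintro i j hij hj ⟨r, hr1, hr2⟩
    obtain ⟨_, _, ζ, hζ⟩ := hpq i (hij.trans hj)
    obtain ⟨h1, h2, _⟩ := hpq j hj
    refine h1 r (hr2.trans h2) ζ (mono hr1 ?_ hζ)
    rcases (Order.add_one_le_iff.2 hij).lt_or_eq with h | h
    · exact (hrun j hj.le _ h).1
    · rw [h]
  refine not_countable_Iio (k := w1) le_rfl (Coh.ccc_fam (Set.Iio w1) q fun i hi j hj hc => ?_)
  rcases lt_trichotomy i j with h | h | h
  · exact (key i j h hj hc).elim
  · exact h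
  · exact (key j i h hi hc.symm).elim

/-- Decisions of `ω₁` many values. -/
theorem exists_good_all (D : O0 → Coh → Sq → O0 → Prop)
    (mono : ∀ {i p q s t ζ}, q ≤ p → t ≤ s → D i p s ζ → D i q t ζ)
    (t0 : Sq) (p0 : Coh)
    (dense : ∀ i < w1, ∀ p ≤ p0, ∀ t ≤ t0, ∃ q ≤ p, ∃ t' ≤ t, ∃ ζ, D i q t' ζ) :
    ∃ t ≤ t0, ∀ i < w1, ∀ p ≤ p0, ∃ q ≤ p, ∃ ζ, D i q t ζ := by
  classical
  obtain ⟨t, ht0, htR, hrun⟩ := exists_simple_run
    (fun i t t' => i < w1 → t ≤ t0 → ∀ p ≤ p0, ∃ q ≤ p, ∃ ζ, D i q t' ζ)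
    (fun i t => by
      by_cases h : i < w1 ∧ t ≤ t0
      · obtain ⟨t', ht', h1⟩ := exists_good (D i) mono t p0
          (fun p hp t' ht' => dense i h.1 p hp t' (ht'.trans h.2))
        exact ⟨t', ht', fun _ _ => h1⟩
      · exact ⟨t, le_rfl, fun h1 h2 => (h ⟨h1, h2⟩).elim⟩)
    (fun i t t' t'' h1 h2 h3 h4 p hp => by
      obtain ⟨q, hq, ζ, hζ⟩ := h2 h3 h4 p hp
      exact ⟨q, hq, ζ, mono le_rfl h1 hζ⟩) t0
  have h0 : (0 : O0) < w1 := omega_pos _
  have hle : ∀ i ≤ w1, t i ≤ t0 := fun i hi => by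
    rcases eq_or_ne i 0 with rfl | h
    · rw [ht0]
    · rw [← ht0]; exact (hrun i hi 0 (pos_iff_ne_zero.2 h)).1
  refine ⟨t w1, hle w1 le_rfl, fun i hi p hp => ?_⟩
  obtain ⟨q, hq, ζ, hζ⟩ := htR i hi (hle i hi.le) p hp
  exact ⟨q, hq, ζ, mono le_rfl (hrun w1 le_rfl (i + 1) (lim_w1.add_one_lt hi)).1 hζ⟩

end Pool.Agent.H82.CS
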