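import Pool.Agent.H82.CS.OrdB

/-!
# Conditions for adding a square sequence after adding Cohen reals
-/

set_option linter.unusedVariables false
set_option linter.unusedSectionVars false

namespace Pool.Agent.H82.CS

open Pool.Agent.H86 Ordinal

/-- a single valued name of an ordinal -/
structure SV : Type 1 where
  v : O0 → Om Coh
  sv : ∀ {ζ ζ' p}, (v ζ).holds p → (v ζ').holds p → ζ = ζ'
  dense : ∀ p, ∃ q ≤ p, ∃ ζ, (v ζ).holds q

namespace SV

theorem cnt (b : SV) : {ζ | ∃ p, (b.v ζ).holds p}.Countable := by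
  classical
  have : ∀ ζ : O0, ∃ p : Coh, ζ ∈ {ζ | ∃ p, (b.v ζ).holds p} → (b.v ζ).holds p := by
    intro ζ
    by_cases h : ∃ p, (b.v ζ).holds p
    · exact ⟨h.choose, fun _ => h.choose_spec⟩
    · exact ⟨⊤, fun h' => (h h').elim⟩
  choose a ha using this
  refine Coh.ccc_fam _ a ?_
  rintro i hi j hj ⟨r, h1, h2⟩
  exact b.sv ((b.v i).mono h1 (ha i hi)) ((b.v j).mono h2 (ha j hj))

/-- the name of a given ordinal -/
def chk (γ : O0) : SV where
  v := fun ζ => ⟨fun _ => ζ = γ, fun _ h => h, fun {p} h => by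
    obtain ⟨r, _, h'⟩ := h p le_rfl; exact h'⟩
  sv := fun {ζ ζ' p} h1 h2 => by
    have e1 : ζ = γ := h1
    have e2 : ζ' = γ := h2
    rw [e1, e2]
  dense := fun p => ⟨p, le_rfl, γ, rfl⟩

theorem chk_holds {γ ζ : O0} {p : Coh} : ((chk γ).v ζ).holds p ↔ ζ = γ := Iff.rfl

/-- the name of the least ordinal for which `D` holds -/
def least (D : Coh → O0 → Prop) (mono : ∀ p q ζ, q ≤ p → D p ζ → D q ζ)
    (reg : ∀ p ζ, (∀ q ≤ p, ∃ r ≤ q, D r ζ) → D p ζ)
    (dense : ∀ p, ∃ q ≤ p, ∃ ζ, D q ζ) : SV where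
  v := fun ζ => ⟨fun p => D p ζ ∧ ∀ ξ < ζ, ∀ q ≤ p, ¬ D q ξ,
    fun {p q} h hp => ⟨mono _ _ _ h hp.1, fun ξ hξ r hr => hp.2 ξ hξ r (hr.trans h)⟩,
    fun {p} h => ⟨reg _ _ fun q hq => (h q hq).imp fun r hr => ⟨hr.1, hr.2.1⟩,
      fun ξ hξ q hq hD => by
        obtain ⟨r, hr, h1, h2⟩ := h q hq
        exact h2 ξ hξ r le_rfl (mono _ _ _ hr hD)⟩⟩
  sv := fun {ζ ζ' p} h1 h2 => by
    rcases lt_trichotomy ζ ζ' with h | h | h
    · exact (h2.2 ζ h p le_rfl h1.1).elim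
    · exact h
    · exact (h1.2 ζ' h p le_rfl h2.1).elim
  dense := fun p => by
    obtain ⟨q, hq, ζ, hζ⟩ := dense p
    obtain ⟨ζ', ⟨q', hq', h1⟩, hmin⟩ := WellFounded.has_min (wellFounded_lt (α := O0))
      {ζ | ∃ q ≤ p, D q ζ} ⟨ζ, q, hq, hζ⟩
    exact ⟨q', hq', ζ', h1, fun ξ hξ r hr h2 => hmin ξ ⟨r, hr.trans hq', h2⟩ hξ⟩

theorem least_holds {D : Coh → O0 → Prop} {mono reg dense} {ζ : O0} {p : Coh}
    (h : ((least D mono reg dense).v ζ).holds p) : D p ζ := h.1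

end SV

/-- Conditions: names of initial segments of a square sequence. -/
structure Sq : Type 1 where
  len : O0
  c : O0 → O0 → Om Coh
  len_lt : len < w2
  dom : ∀ {α ζ p}, (c α ζ).holds p → ζ < α ∧ α ≤ len ∧ Order.IsSuccLimit α
  unb : ∀ {α}, α ≤ len → Order.IsSuccLimit α → ∀ ξ < α, ∀ p, ∃ q ≤ p, ∃ ζ, ξ < ζ ∧
    (c α ζ).holds q
  cnt : ∀ {α}, α ≤ len → Order.IsSuccLimit α → ∀ δ < α,
    {ζ | ζ < δ ∧ ∃ p, (c α ζ).holds p}.Countable
  coh : ∀ {α β}, α ≤ len → Order.IsSuccLimit α → β < α → Order.IsSuccLimit β → ∀ p,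
    (∀ ξ < β, ∀ q ≤ p, ∃ r ≤ q, ∃ ζ, ξ < ζ ∧ ζ < β ∧ (c α ζ).holds r) →
      (c α β).holds p ∧ ∀ ζ < β, ∀ q ≤ p, ((c α ζ).holds q ↔ (c β ζ).holds q)

namespace Sq

instance : Preorder Sq where
  le := fun s t => t.len ≤ s.len ∧ ∀ α ≤ t.len, s.c α = t.c α
  le_refl := fun s => ⟨le_rfl, fun _ _ => rfl⟩
  le_trans := fun r s t h1 h2 => ⟨h2.1.trans h1.1, fun α hα => by
    rw [h1.2 α (hα.trans h2.1), h2.2 α hα]⟩

theorem le_def {s t : Sq} : s ≤ t ↔ t.len ≤ s.len ∧ ∀ α ≤ t.len, s.c α = t.c α := Iff.rfl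

instance : OrderTop Sq where
  top :=
    { len := 0
      c := fun _ _ => Om.bot
      len_lt := omega_pos _
      dom := fun h => h.elim
      unb := fun h1 h2 => (h2.ne_bot (le_bot_iff.1 h1)).elim
      cnt := fun h1 h2 => (h2.ne_bot (le_bot_iff.1 h1)).elim
      coh := fun h1 h2 => (h2.ne_bot (le_bot_iff.1 h1)).elim }
  le_top := fun s => ⟨zero_le, fun α hα => by
    funext ζ
    have h0 : α = 0 := le_bot_iff.1 hα
    have hn : ∀ p, ¬ (s.c α ζ).holds p := fun p hp => by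
      have := (s.dom hp).1
      rw [h0] at this
      exact not_lt_bot this
    show s.c α ζ = Om.bot
    cases hs : s.c α ζ with
    | mk a b c =>
      have : a = fun _ => False := by
        funext p
        simp only [eq_iff_iff, iff_false]
        intro hp
        exact hn p (by rw [hs]; exact hp)
      subst this
      rfl⟩

/-- lengthening by one -/
def suc (s : Sq) : Sq where
  len := s.len + 1
  c := s.c
  len_lt := lim_w2.add_one_lt s.len_lt
  dom := fun h => ⟨(s.dom h).1, (s.dom h).2.1.trans ((lt_add_one _).le), (s.dom h).2.2⟩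
  unb := fun {α} h1 h2 => s.unb (by
    rcases h1.lt_or_eq with h | rfl
    · exact Order.lt_add_one_iff.1 h
    · exact (Order.not_isSuccLimit_add_one _ h2).elim) h2
  cnt := fun {α} h1 h2 => s.cnt (by
    rcases h1.lt_or_eq with h | rfl
    · exact Order.lt_add_one_iff.1 h
    · exact (Order.not_isSuccLimit_add_one _ h2).elim) h2
  coh := fun {α β} h1 h2 => s.coh (by
    rcases h1.lt_or_eq with h | rfl
    · exact Order.lt_add_one_iff.1 h
    · exact (Order.not_isSuccLimit_add_one _ h2).elim) h2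

theorem suc_le (s : Sq) : s.suc ≤ s := ⟨(lt_add_one _).le, fun _ _ => rfl⟩
theorem suc_len (s : Sq) : s.suc.len = s.len + 1 := rfl

theorem c_eq {s t : Sq} (h : s ≤ t) {α : O0} (hα : α ≤ t.len) : s.c α = t.c α := h.2 α hα
theorem len_mono {s t : Sq} (h : s ≤ t) : t.len ≤ s.len := h.1

end Sq

/-- The limit step. -/
theorem exists_lim {i : O0} (hi : Order.IsSuccLimit i) (hi1 : i ≤ w1) (t : O0 → Sq) (b : O0 → SV)
    (hmono : ∀ k l, k ≤ l → l < i → t l ≤ t k)
    (hlt : ∀ k < i, (t k).len < (t (k + 1)).len)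
    (hlim : ∀ k < i, Order.IsSuccLimit k → (∀ δ < (t k).len, ∃ l < k, δ < (t l).len) ∧
      ∀ ζ p, ((t k).c (t k).len ζ).holds p ↔ ∃ l < k, ((b l).v ζ).holds p)
    (hb : ∀ k < i, ∀ ζ p, ((b k).v ζ).holds p → (t k).len ≤ ζ ∧ ζ < (t (k + 1)).len)
    (hchk : ∀ k < i, Order.IsSuccLimit k → ∀ ζ p, ((b k).v ζ).holds p ↔ ζ = (t k).len) :
    ∃ s : Sq, (∀ k < i, s ≤ t k) ∧ (∀ δ < s.len, ∃ l < i, δ < (t l).len) ∧
      (∀ k < i, (t k).len < s.len) ∧
      ∀ ζ p, (s.c s.len ζ).holds p ↔ ∃ l < i, ((b l).v ζ).holds p := by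
  classical
  obtain ⟨L, hL, hL1, hL2⟩ := exists_sup (hi1.trans_lt w1_lt_w2) (fun k => (t k).len)
    (fun k _ => (t k).len_lt)
  have hsl : ∀ k < i, k + 1 < i := fun k hk => hi.add_one_lt hk
  have hsm : ∀ k l, k < l → l < i → (t (k + 1)).len ≤ (t l).len := fun k l h1 h2 =>
    Sq.len_mono (hmono _ _ (Order.add_one_le_iff.2 h1) h2)
  have hltL : ∀ k < i, (t k).len < L := fun k hk =>
    (hlt k hk).trans_le (hL1 _ (hsl k hk))
  have huniq : ∀ k < i, ∀ l < i, ∀ ζ p q, ((b k).v ζ).holds p → ((b l).v ζ).holds q → k = l := by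
    intro k hk l hl ζ p q h1 h2
    have h3 := hb k hk ζ p h1
    have h4 := hb l hl ζ q h2
    rcases lt_trichotomy k l with h | h | h
    · exact absurd ((h3.2.trans_le (hsm k l h hl)).trans_le h4.1) (lt_irrefl _)
    · exact h
    · exact absurd ((h4.2.trans_le (hsm l k h hk)).trans_le h3.1) (lt_irrefl _)
  -- the top name
  let topc : O0 → Om Coh := fun ζ => ⟨fun p => ∃ l < i, ((b l).v ζ).holds p,
    fun {p q} h ⟨l, hl, hp⟩ => ⟨l, hl, ((b l).v ζ).mono h hp⟩, fun {p} h => by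
      obtain ⟨r, hr, l, hl, h1⟩ := h p le_rfl
      refine ⟨l, hl, ((b l).v ζ).reg fun q hq => ?_⟩
      obtain ⟨r', hr', l', hl', h2⟩ := h q hq
      have : l = l' := huniq l hl l' hl' ζ _ _ h1 h2
      subst this
      exact ⟨r', hr', h2⟩⟩
  have htop : ∀ ζ p, (topc ζ).holds p ↔ ∃ l < i, ((b l).v ζ).holds p := fun _ _ => Iff.rfl
  have hchoose : ∀ α : O0, ∃ k : O0, α < L → k < i ∧ α < (t k).len := by
    intro α
    by_cases h : α < L
    · obtain ⟨k, hk, h1⟩ := hL2 α h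
      exact ⟨k, fun _ => ⟨hk, h1⟩⟩
    · exact ⟨0, fun h' => (h h').elim⟩
  choose κ hκ using hchoose
  let cc : O0 → O0 → Om Coh := fun α ζ =>
    if α < L then (t (κ α)).c α ζ else if α = L then topc ζ else Om.bot
  have hcL : ∀ ζ, cc L ζ = topc ζ := fun ζ => by simp [cc]
  have hcc : ∀ k < i, ∀ α ≤ (t k).len, cc α = (t k).c α := by
    intro k hk α hα
    funext ζ
    have h1 : α < L := hα.trans_lt (hltL k hk)
    have h2 := hκ α h1
    simp only [cc, h1, if_true]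
    rcases le_total k (κ α) with h | h
    · rw [Sq.c_eq (hmono _ _ h h2.1) hα]
    · rw [Sq.c_eq (hmono _ _ h hk) h2.2.le]
  have hLlim : Order.IsSuccLimit L := by
    have h0 : (0 : O0) < i := hi.bot_lt
    refine ⟨fun h => ?_, fun a ha => ?_⟩
    · exact absurd (hltL 0 h0) (not_lt.2 ((isMin_iff_eq_bot.1 h).le.trans zero_le))
    · obtain ⟨k, hk, h1⟩ := hL2 a ha.1
      exact ha.2 h1 (hltL k hk)
  have hlow : ∀ {ζ p}, (topc ζ).holds p → ζ < L := by
    intro ζ p h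
    obtain ⟨l, hl, h1⟩ := (htop _ _).1 h
    exact (hb l hl ζ p h1).2.trans_le (hL1 _ (hsl l hl))
  -- countability of the bounded pieces
  have hcntL : ∀ δ < L, {ζ | ζ < δ ∧ ∃ p, (topc ζ).holds p}.Countable := by
    intro δ hδ
    obtain ⟨k, hk, h1⟩ := hL2 δ hδ
    have hsub : {ζ | ζ < δ ∧ ∃ p, (topc ζ).holds p} ⊆
        ⋃ l ∈ Set.Iio k, {ζ | ∃ p, ((b l).v ζ).holds p} := by
      rintro ζ ⟨h2, p, h3⟩
      obtain ⟨l, hl, h4⟩ := (htop _ _).1 h3
      simp only [Set.mem_iUnion]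
      refine ⟨l, ?_, p, h4⟩
      by_contra hc
      have h5 : k ≤ l := not_lt.1 hc
      have h6 := (hb l hl ζ p h4).1
      exact absurd (((Sq.len_mono (hmono k l h5 hl)).trans h6).trans_lt (h2.trans h1))
        (lt_irrefl _)
    exact Set.Countable.mono hsub
      ((countable_Iio (hk.trans_le hi1)).biUnion fun l _ => (b l).cnt)
  have hunbL : ∀ ξ < L, ∀ p, ∃ q ≤ p, ∃ ζ, ξ < ζ ∧ (topc ζ).holds q := by
    intro ξ hξ p
    obtain ⟨k, hk, h1⟩ := hL2 ξ hξ
    obtain ⟨q, hq, ζ, hζ⟩ := (b k).dense p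
    exact ⟨q, hq, ζ, h1.trans_le (hb k hk ζ q hζ).1, (htop _ _).2 ⟨k, hk, hζ⟩⟩
  have hcohL : ∀ β < L, Order.IsSuccLimit β → ∀ p,
      (∀ ξ < β, ∀ q ≤ p, ∃ r ≤ q, ∃ ζ, ξ < ζ ∧ ζ < β ∧ (topc ζ).holds r) →
      (topc β).holds p ∧ ∀ ζ < β, ∀ q ≤ p, ((topc ζ).holds q ↔ (cc β ζ).holds q) := by
    intro β hβ hβl p hp
    -- the least `k` with `β ≤ (t k).len`
    obtain ⟨k, ⟨hk, hkβ⟩, hmin⟩ := WellFounded.has_min (wellFounded_lt (α := O0))
      {k | k < i ∧ β ≤ (t k).len} (by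
        obtain ⟨k, hk, h1⟩ := hL2 β hβ
        exact ⟨k, hk, h1.le⟩)
    have hmin' : ∀ l < k, (t l).len < β := fun l hl => by
      by_contra hc
      exact hmin l ⟨hl.trans hk, not_lt.1 hc⟩ hl
    have hk0 : k ≠ 0 := by
      rintro rfl
      obtain ⟨r, hr, ζ, h1, h2, h3⟩ := hp 0 hβl.bot_lt p le_rfl
      obtain ⟨l, hl, h4⟩ := (htop _ _).1 h3
      have h5 := (hb l hl ζ r h4).1
      exact absurd ((h2.trans_le hkβ).trans_le
        ((Sq.len_mono (hmono 0 l zero_le hl)).trans h5)) (lt_irrefl _)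
    rcases Ordinal.zero_or_succ_or_isSuccLimit k with rfl | ⟨k', rfl⟩ | hklim
    · exact (hk0 rfl).elim
    · exfalso
      have hk'1 : k' < k' + 1 := lt_add_one _
      have hk' : k' < i := hk'1.trans hk
      have h1 := hmin' k' hk'1
      have hloc : ∀ {ζ r}, (t k').len < ζ → ζ < β → (topc ζ).holds r → ((b k').v ζ).holds r := by
        intro ζ r h2 h3 h4
        obtain ⟨l, hl, h5⟩ := (htop _ _).1 h4
        have h6 := hb l hl ζ r h5
        have e : l = k' := by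
          rcases lt_trichotomy l k' with h | h | h
          · exact absurd ((h6.2.trans_le (hsm l k' h hk')).trans h2) (lt_irrefl _)
          · exact h
          · have h7 : (t (k' + 1)).len ≤ (t l).len := hsm k' l h hl
            exact absurd (((h3.trans_le hkβ).trans_le h7).trans_le h6.1) (lt_irrefl _)
        rw [← e]; exact h5
      obtain ⟨q, hq, ζ, h2, h3, h4⟩ := hp _ h1 p le_rfl
      obtain ⟨q', hq', ζ', h2', h3', h4'⟩ := hp ζ h3 q hq
      have e1 := hloc h2 h3 h4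
      have e2 := hloc (h2.trans h2') h3' h4'
      have := (b k').sv (((b k').v ζ).mono hq' e1) e2
      rw [this] at h2'
      exact lt_irrefl _ h2'
    · have hβk : β = (t k).len := by
        refine le_antisymm hkβ (not_lt.1 fun h => ?_)
        obtain ⟨l, hl, h1⟩ := (hlim k hk hklim).1 β h
        exact absurd (h1.trans (hmin' l hl)) (lt_irrefl _)
      refine ⟨(htop _ _).2 ⟨k, hk, (hchk k hk hklim β p).2 hβk⟩, fun ζ hζ q hq => ?_⟩
      rw [hcc k hk β hβk.le, hβk, (hlim k hk hklim).2 ζ q, htop]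
      constructor
      · rintro ⟨l, hl, h1⟩
        refine ⟨l, ?_, h1⟩
        by_contra hc
        have h2 := (hb l hl ζ q h1).1
        have h3 := Sq.len_mono (hmono k l (not_lt.1 hc) hl)
        exact absurd ((hζ.trans_le (hβk.le.trans (h3.trans h2)))) (lt_irrefl _)
      · rintro ⟨l, hl, h1⟩
        exact ⟨l, hl.trans hk, h1⟩
  have hcase : ∀ {α}, α ≤ L → α ≠ L → ∃ k < i, α ≤ (t k).len := by
    intro α h1 h2
    obtain ⟨k, hk, h3⟩ := hL2 α (lt_of_le_of_ne h1 h2)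
    exact ⟨k, hk, h3.le⟩
  refine ⟨{
    len := L
    c := cc
    len_lt := hL
    dom := ?_
    unb := ?_
    cnt := ?_
    coh := ?_ }, ?_, hL2, hltL, ?_⟩
  · intro α ζ p h
    rcases lt_trichotomy α L with h1 | h1 | h1
    · obtain ⟨k, hk, h2⟩ := hcase h1.le h1.ne
      rw [hcc k hk α h2] at h
      exact ⟨((t k).dom h).1, h1.le, ((t k).dom h).2.2⟩
    · rw [h1] at h ⊢
      rw [hcL] at h
      exact ⟨hlow h, le_rfl, hLlim⟩
    · have h2 : ¬ α < L := not_lt.2 h1.le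
      simp only [cc, h2, h1.ne', if_false] at h
      exact h.elim
  · intro α h1 h2
    by_cases h3 : α = L
    · subst h3
      intro ξ hξ p
      simp only [hcL]
      exact hunbL ξ hξ p
    · obtain ⟨k, hk, h4⟩ := hcase h1 h3
      rw [hcc k hk α h4]
      exact (t k).unb h4 h2
  · intro α h1 h2
    by_cases h3 : α = L
    · subst h3
      simp only [hcL]
      exact hcntL
    · obtain ⟨k, hk, h4⟩ := hcase h1 h3
      rw [hcc k hk α h4]
      exact (t k).cnt h4 h2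
  · intro α β h1 h2 h5 h6
    by_cases h3 : α = L
    · subst h3
      simp only [hcL]
      exact hcohL β h5 h6
    · obtain ⟨k, hk, h4⟩ := hcase h1 h3
      rw [hcc k hk α h4, hcc k hk β (h5.le.trans h4)]
      exact (t k).coh h4 h2 h5 h6
  · intro k hk
    exact ⟨(hltL k hk).le, fun α hα => hcc k hk α hα⟩
  · intro ζ p
    show (cc L ζ).holds p ↔ _
    rw [hcL]

end Pool.Agent.H82.CS
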