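import Pool.Agent.H82.CS.Card

/-!
# The generic sequence is a square sequence
-/

set_option linter.unusedVariables false
set_option linter.unusedSectionVars false

namespace Pool.Agent.H82.CS

open Pool.Agent.H86 Ordinal Name

/-- membership in the name of the club with index `α` -/
def DC (α : O0) : O0 → QQ → Prop := fun ζ q => (q.2.c α ζ).holds q.1

theorem DC_mono (α : O0) : ∀ ζ p q, q ≤ p → DC α ζ p → DC α ζ q := by
  intro ζ p q h hp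
  unfold DC at *
  have h1 := p.2.dom hp
  rw [Sq.c_eq h.2 h1.2.1]
  exact (p.2.c α ζ).mono h.1 hp

/-- the name of the club with index `α` -/
noncomputable def nc (α : O0) : SS.HN := sn (DC α)

/-- the name of the square sequence -/
noncomputable def nC : SS.HN := qn w2 nc

theorem mem_nc {α : O0} {X : SS.HN} {p : QQ} :
    fmem X.1 (nc α).1 p ↔ ∀ q ≤ p, ∃ r ≤ q, ∃ ζ, (r.2.c α ζ).holds r.1 ∧ feq X.1 (o ζ).1 r :=
  fmem_sn (DC_mono α)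

theorem mem_nc_o {α ζ : O0} {p : QQ} (h : α ≤ p.2.len) :
    fmem (o ζ).1 (nc α).1 p ↔ (p.2.c α ζ).holds p.1 := by
  unfold nc
  rw [fmem_sn_o (DC_mono α)]
  constructor
  · intro h1
    refine (p.2.c α ζ).reg fun q hq => ?_
    obtain ⟨r, hr, h2⟩ := h1 (q, p.2) ⟨hq, le_rfl⟩
    refine ⟨r.1, hr.1, ?_⟩
    unfold DC at h2
    rwa [Sq.c_eq hr.2 h] at h2
  · intro h1 q hq
    exact ⟨q, le_rfl, DC_mono α ζ p q hq h1⟩

theorem exists_le_len (p : QQ) (α : O0) (hα : α < w2) : ∃ q ≤ p, α ≤ q.2.len := by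
  obtain ⟨t, ht, h⟩ := exists_len α hα p.2
  exact ⟨(p.1, t), ⟨le_rfl, ht⟩, h⟩

theorem lim_of_fLim {α : O0} {p : QQ} (h : (fLim SS.FS (o α)).holds p) :
    Order.IsSuccLimit α := by
  refine ⟨fun hm => ?_, fun β hβ => ?_⟩
  · obtain ⟨r, hr, Z, hZ⟩ := h.1 p le_rfl
    obtain ⟨_, _, β, hβ, _⟩ := mem_o' hZ
    rw [isMin_iff_eq_bot.1 hm] at hβ
    exact not_lt_bot hβ
  · obtain ⟨r, hr, Z, hZ, hZ2⟩ := h.2 (o β) p le_rfl (fmem_o.2 hβ.1) p le_rfl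
    obtain ⟨s, hs, γ, hγ, h1⟩ := mem_o' hZ
    have h2 : β < γ := fmem_o.1 (fmem_congr_right h1 (fmem_mono hs hZ2))
    exact hβ.2 h2 hγ

theorem fLim_of_lim {α : O0} (h : Order.IsSuccLimit α) (p : QQ) :
    (fLim SS.FS (o α)).holds p := by
  refine ⟨fun q hq => ⟨q, le_rfl, o 0, fmem_o.2 h.bot_lt⟩, fun X q hq hX r hr => ?_⟩
  obtain ⟨s, hs, β, hβ, e⟩ := mem_o' (fmem_mono hr hX)
  exact ⟨s, hs, o (β + 1), fmem_o.2 (h.add_one_lt hβ),
    fmem_congr_left (feq_symm e) (fmem_o.2 (lt_add_one _))⟩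

theorem unbB_data {α b : O0} {p : QQ} (h : (fUnbB SS.FS (nc α) (o b)).holds p)
    (hα : α ≤ p.2.len) :
    ∀ ξ < b, ∀ q ≤ p.1, ∃ r ≤ q, ∃ ζ, ξ < ζ ∧ ζ < b ∧ (p.2.c α ζ).holds r := by
  intro ξ hξ q hq
  have hqp : ((q, p.2) : QQ) ≤ p := ⟨hq, le_rfl⟩
  obtain ⟨u, hu, Z, h1, h2, h3⟩ := h (o ξ) p le_rfl (fmem_o.2 hξ) (q, p.2) hqp
  obtain ⟨v, hv, ζ, h4, h5⟩ := mem_nc.1 h1 u le_rfl
  refine ⟨v.1, (hv.trans hu).1, ζ, ?_, ?_, ?_⟩
  · exact fmem_o.1 (fmem_congr_right h5 (fmem_mono hv h3))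
  · exact fmem_o.1 (fmem_congr_left h5 (fmem_mono hv h2))
  · rwa [Sq.c_eq (hv.trans (hu.trans hqp)).2 hα] at h4

theorem lim_of_unbB {b : O0} (hb : b ≠ 0)
    (h : ∀ ξ < b, ∃ ζ, ξ < ζ ∧ ζ < b) : Order.IsSuccLimit b := by
  refine ⟨fun hm => hb (isMin_iff_eq_bot.1 hm), fun β hβ => ?_⟩
  obtain ⟨ζ, h1, h2⟩ := h β hβ.1
  exact hβ.2 h1 h2

/-- assignment of three names -/
def asg4 (a b c d : SS.HN) : ℕ → SS.HN
  | 0 => a
  | 1 => b
  | 2 => c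
  | _ => d

theorem asg4_congr {a b c d a' b' c' d' : SS.HN} {p : QQ} (h1 : feq a.1 a'.1 p)
    (h2 : feq b.1 b'.1 p) (h3 : feq c.1 c'.1 p) (h4 : feq d.1 d'.1 p) :
    ∀ i, feq (asg4 a b c d i).1 (asg4 a' b' c' d' i).1 p
  | 0 => h1
  | 1 => h2
  | 2 => h3
  | (_ + 3) => h4

theorem fSqC_congr {a b c d a' b' c' d' : SS.HN} {p : QQ} (h1 : feq a.1 a'.1 p)
    (h2 : feq b.1 b'.1 p) (h3 : feq c.1 c'.1 p) (h4 : feq d.1 d'.1 p) :
    (fSqC SS.FS a b c d).holds p ↔ (fSqC SS.FS a' b' c' d').holds p :=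
  SS.eval_eq_iff (fSqC codeStr 0 1 2 3 4) (asg4 a b c d) (asg4 a' b' c' d') p
    (fun i _ => asg4_congr h1 h2 h3 h4 i)

theorem fUnbB_congr {a b a' b' : SS.HN} {p : QQ} (h1 : feq a.1 a'.1 p) (h2 : feq b.1 b'.1 p) :
    (fUnbB SS.FS a b).holds p ↔ (fUnbB SS.FS a' b').holds p :=
  SS.eval_eq_iff (fUnbB codeStr 0 1 2) (asg2 a b) (asg2 a' b') p
    (fun i _ => asg2_congr h1 h2 i)

theorem fLim_congr {a a' : SS.HN} {p : QQ} (h1 : feq a.1 a'.1 p) :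
    (fLim SS.FS a).holds p ↔ (fLim SS.FS a').holds p :=
  SS.eval_eq_iff (fLim codeStr 0 1) (asg2 a a) (asg2 a' a') p
    (fun i _ => asg2_congr h1 h1 i)

theorem R_nC {X Y : SS.HN} {p : QQ} (h : SS.R nC X Y p) :
    ∃ r ≤ p, ∃ α < w2, feq X.1 (o α).1 r ∧ feq Y.1 (nc α).1 r := by
  unfold nC at h
  exact R_qn.1 h p le_rfl

theorem sqC_holds {α : O0} (hα2 : α < w2) (hα : Order.IsSuccLimit α) {p : QQ}
    (hp : α ≤ p.2.len) : (fSqC SS.FS nC (o w1) (o α) (nc α)).holds p := by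
  refine ⟨⟨?_, ?_, ?_⟩, ?_, ?_⟩
  · -- subset
    intro Z q hq hZ
    refine mem_o.2 fun r hr => ?_
    obtain ⟨s, hs, ζ, h1, h2⟩ := mem_nc.1 hZ r hr
    exact ⟨s, hs, ζ, (s.2.dom h1).1, h2⟩
  · -- unbounded
    intro Z q hq hZ r hr
    obtain ⟨s, hs, β, hβ, h1⟩ := mem_o.1 hZ r hr
    have hps : α ≤ s.2.len := hp.trans (Sq.len_mono (hs.trans (hr.trans hq)).2)
    obtain ⟨u, hu, ζ, h2, h3⟩ := s.2.unb hps hα β hβ s.1
    have hus : ((u, s.2) : QQ) ≤ s := ⟨hu, le_rfl⟩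
    refine ⟨(u, s.2), hus.trans hs, o ζ, (mem_nc_o (p := (u, s.2)) hps).2 h3, ?_⟩
    exact fmem_congr_left (feq_symm (feq_mono hus h1)) (fmem_o.2 h2)
  · -- closed
    intro Z q1 hq1 hZ q2 hq2 hne q3 hq3 hunb
    apply fmem_reg
    intro q hq
    obtain ⟨r, hr, b, hb, h1⟩ := mem_o.1 hZ q (hq.trans (hq3.trans hq2))
    have hpr : r ≤ p := hr.trans (hq.trans (hq3.trans (hq2.trans hq1)))
    have hlr : α ≤ r.2.len := hp.trans (Sq.len_mono hpr.2)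
    have hunb' : (fUnbB SS.FS (nc α) (o b)).holds r :=
      (fUnbB_congr (feq_refl _ _) h1).1 ((fUnbB SS.FS (nc α) Z).mono (hr.trans hq) hunb)
    have hdata := unbB_data hunb' hlr
    have hb0 : b ≠ 0 := by
      rintro rfl
      obtain ⟨s, hs, W, hW⟩ := hne r (hr.trans (hq.trans hq3))
      obtain ⟨_, _, β, hβ, _⟩ := mem_o' (fmem_congr_right (feq_mono hs h1) hW)
      exact not_lt_bot hβ
    have hbl := lim_of_unbB hb0 fun ξ hξ => by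
      obtain ⟨_, _, ζ, h2, h3, _⟩ := hdata ξ hξ r.1 le_rfl
      exact ⟨ζ, h2, h3⟩
    have h2 := (r.2.coh hlr hα hb hbl r.1 hdata).1
    exact ⟨r, hr, fmem_congr_left (feq_symm h1) ((mem_nc_o hlr).2 h2)⟩
  · -- order type
    intro q hq
    obtain ⟨g, hg1, hg2⟩ := exists_embed {ζ | ∃ u, (p.2.c α ζ).holds u} α
      (fun ζ ⟨u, hu⟩ => (p.2.dom hu).1) (fun δ hδ => p.2.cnt hp hα δ hδ)
    have hD : ∀ (x y : O0) (p' q : QQ), q ≤ p' → ((∃ u, (p.2.c α x).holds u) ∧ y = g x) →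
        ((∃ u, (p.2.c α x).holds u) ∧ y = g x) := fun _ _ _ _ _ h => h
    refine ⟨q, le_rfl, rn (fun x y _ => (∃ u, (p.2.c α x).holds u) ∧ y = g x),
      fFun_rn hD ?_, ?_, ?_⟩
    · rintro x y y' r _ ⟨_, h1⟩ ⟨_, h2⟩
      rw [h1, h2]
    · intro Z r hr hZ s hs
      obtain ⟨u, hu, ζ, h1, h2⟩ := mem_nc.1 hZ s hs
      have h3 : (p.2.c α ζ).holds u.1 := by
        rwa [Sq.c_eq (hu.trans (hs.trans (hr.trans hq))).2 hp] at h1
      refine ⟨u, hu, o (g ζ), fmem_o.2 (hg1 ζ ⟨_, h3⟩), SS.holds_fRel.2 ?_⟩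
      rw [R_rn hD]
      intro t' ht'
      exact ⟨t', le_rfl, ζ, g ζ, ⟨⟨_, h3⟩, rfl⟩, feq_mono ht' h2, feq_refl _ _⟩
    · intro X Y X' Y' r1 hr1 h1 r2 hr2 h2 r3 hr3 h3
      rw [SS.holds_fRel, R_rn hD] at h1 h2
      apply fmem_reg
      intro r hr
      obtain ⟨s, hs, x, y, ⟨h4, h5⟩, h6, h7⟩ := h1 r (hr.trans (hr3.trans hr2))
      obtain ⟨s', hs', x', y', ⟨h4', h5'⟩, h6', h7'⟩ := h2 s (hs.trans (hr.trans hr3))
      subst h5 h5'
      refine ⟨s', hs'.trans hs, ?_⟩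
      have e : x < x' := fmem_o.1 (fmem_congr_left (feq_mono hs' h6)
        (fmem_congr_right h6' (fmem_mono (hs'.trans (hs.trans hr)) h3)))
      exact fmem_congr_left (feq_symm (feq_mono hs' h7)) (fmem_congr_right (feq_symm h7')
        (fmem_o.2 (hg2 x h4 x' h4' e)))
  · -- coherence
    intro Z q1 hq1 hZ q2 hq2 hunb W q3 hq3 hW V
    have key : ∀ q ≤ q3, ∃ r ≤ q, ∃ b < α, α ≤ r.2.len ∧ feq Z.1 (o b).1 r ∧
        feq W.1 (nc b).1 r ∧ ∀ ζ < b, ∀ s ≤ r.1, ((r.2.c α ζ).holds s ↔ (r.2.c b ζ).holds s) := by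
      intro q hq
      obtain ⟨r, hr, ζ, h1, h2⟩ := mem_nc.1 hZ q (hq.trans (hq3.trans hq2))
      rw [SS.holds_fRel] at hW
      obtain ⟨s, hs, b, hb, h3, h4⟩ := R_nC (SS.R_mono (hr.trans hq) hW)
      have e : ζ = b := feq_o.1 (feq_trans (feq_symm (feq_mono hs h2)) h3)
      subst e
      have hlt := (r.2.dom h1).1
      have hsp : s ≤ p := hs.trans (hr.trans (hq.trans (hq3.trans (hq2.trans hq1))))
      have hls : α ≤ s.2.len := hp.trans (Sq.len_mono hsp.2)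
      refine ⟨s, hs.trans hr, ζ, hlt, hls, h3, h4, ?_⟩
      intro ζ' hζ' u hu
      have hunb' : (fUnbB SS.FS (nc α) (o ζ)).holds s :=
        (fUnbB_congr (feq_refl _ _) h3).1 ((fUnbB SS.FS (nc α) Z).mono
          (hs.trans (hr.trans (hq.trans hq3))) hunb)
      have hdata := unbB_data hunb' hls
      have hζ0 : ζ ≠ 0 := by
        rintro rfl
        exact not_lt_bot hζ'
      have hbl := lim_of_unbB hζ0 fun ξ hξ => by
        obtain ⟨_, _, ζ, h2, h3, _⟩ := hdata ξ hξ s.1 le_rfl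
        exact ⟨ζ, h2, h3⟩
      exact (s.2.coh hls hα hlt hbl s.1 hdata).2 ζ' hζ' u hu
    refine ⟨fun q hq hV => ?_, fun q hq hV => ?_⟩
    · refine (SS.FS.and (SS.FS.mem V (nc α)) (SS.FS.mem V Z)).reg fun s hs => ?_
      obtain ⟨r, hr, b, hb, h1, h2, h3, h4⟩ := key s (hs.trans hq)
      have hV' := fmem_congr_right h3 (fmem_mono (hr.trans hs) hV)
      obtain ⟨u, hu, ζ, h5, h6⟩ := mem_nc.1 hV' r le_rfl
      have hζ : ζ < b := (u.2.dom h5).1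
      refine ⟨u, hu.trans hr, ?_, ?_⟩
      · refine fmem_congr_left (feq_symm h6) ((mem_nc_o (h1.trans (Sq.len_mono hu.2))).2 ?_)
        rw [Sq.c_eq hu.2 h1]
        rw [Sq.c_eq hu.2 (hb.le.trans h1)] at h5
        exact (h4 ζ hζ u.1 hu.1).2 h5
      · exact fmem_congr_left (feq_symm h6) (fmem_congr_right (feq_symm (feq_mono hu h2))
          (fmem_o.2 hζ))
    · apply fmem_reg
      intro s hs
      obtain ⟨r, hr, b, hb, h1, h2, h3, h4⟩ := key s (hs.trans hq)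
      obtain ⟨u, hu, ζ, h5, h6⟩ := mem_nc.1 hV.1 r (hr.trans hs)
      have hζ : ζ < b := fmem_o.1 (fmem_congr_left h6 (fmem_congr_right (feq_mono hu h2)
        (fmem_mono (hu.trans (hr.trans hs)) hV.2)))
      refine ⟨u, hu.trans hr, ?_⟩
      refine fmem_congr_left (feq_symm h6) (fmem_congr_right (feq_symm (feq_mono hu h3)) ?_)
      have hbu : b ≤ u.2.len := (hb.le.trans h1).trans (Sq.len_mono hu.2)
      rw [mem_nc_o hbu, Sq.c_eq hu.2 (hb.le.trans h1)]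
      rw [Sq.c_eq hu.2 h1] at h5
      exact (h4 ζ hζ u.1 hu.1).1 h5

theorem forced_square (p : QQ) : (fSquare SS.FS nC (o w1) (o w2)).holds p := by
  refine ⟨fFun_qn _ _ _, fun X => ⟨fun q hq hX => ?_, fun q hq hX => ?_⟩, ?_⟩
  · intro r hr
    obtain ⟨s, hs, β, hβ, h1⟩ := mem_o.1 hX r hr
    refine ⟨s, hs, nc β, SS.holds_fRel.2 ?_⟩
    unfold nC
    rw [R_qn]
    intro t ht
    exact ⟨t, le_rfl, β, hβ, feq_mono ht h1, feq_refl _ _⟩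
  · refine mem_o.2 fun r hr => ?_
    obtain ⟨s, hs, A, hA⟩ := hX r hr
    rw [SS.holds_fRel] at hA
    obtain ⟨t, ht, β, hβ, h1, _⟩ := R_nC hA
    exact ⟨t, ht.trans hs, β, hβ, h1⟩
  · intro X q hq hX q' hq' hlim A q'' hq'' hA
    apply (fSqC SS.FS nC (o w1) X A).reg
    intro r hr
    rw [SS.holds_fRel] at hA
    obtain ⟨s, hs, α, hα, h1, h2⟩ := R_nC (SS.R_mono hr hA)
    obtain ⟨u, hu, h3⟩ := exists_le_len s α hα
    refine ⟨u, hu.trans hs, ?_⟩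
    rw [fSqC_congr (feq_refl _ _) (feq_refl _ _) (feq_mono hu h1) (feq_mono hu h2)]
    have hl : (fLim SS.FS (o α)).holds u :=
      (fLim_congr (feq_mono hu h1)).1 ((fLim SS.FS X).mono
        (hu.trans (hs.trans (hr.trans hq''))) hlim)
    exact sqC_holds hα (lim_of_fLim hl) h3

end Pool.Agent.H82.CS
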